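import Pool.Agent.Helper52.DEG.Defs

/-!
# DEG-RM: the expected number of points on cycles

Proof.  If `y ∈ cyc Z τ`, take a closed path with minimal `j`; then `u 0, …, u (j-1)` are distinct elements of
`Z`, so `1 ≤ j ≤ z = Z.card`.  Hence `ncard (cyc Z τ) ≤ ∑_(j=1)^z #{w : Fin j → Y injective with values in Z,
τ (w i) = some (w (i+1)) cyclically}` (the map `(j, w) ↦ w 0` is onto `cyc`).  Exchange the sums: for fixed
`j, w` the number of `v ∈ piFinset V` with `t (v (w i)) = some (w (i+1))` for all `i` is a product over `y`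
(`Fintype.card_piFinset`: the set for `y = w i` is the filtered one, otherwise `V y`), and by `h`
`z ^ j * (this number) ≤ ∏ (V y).card =: M`.  There are `z (z-1) ⋯ (z-j+1)` maps `w`
(`Nat.descFactorial z j`).  So with `a_j = (z)_j / z^j` (real numbers) the sum is at most `M ∑_(j=1)^z a_j`.
`a_j ≤ 1`, `a_(j+1) = a_j (1 - j/z)`, i.e. `j a_j = z (a_j - a_(j+1))`, so `s ∑_(j ≥ s) a_j ≤ z ∑ (a_j - a_(j+1))
≤ z a_s ≤ z`, and `s ∑_(j < s) a_j ≤ s^2`.  (`z = 0` is trivial: then `cyc` is empty.)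
-/

set_option autoImplicit false

namespace Pool.Agent.Helper52.DEG

/-- a point on a cycle is on a closed path with distinct points -/
private theorem cyc_sub54 {Y : Type} (Z : Finset Y) (τ : Y → Option Y) (y : Y)
    (hy : y ∈ cyc Z τ) :
    ∃ k < Z.card, ∃ w : Fin (k + 1) ↪ {x // x ∈ Z},
      (w 0 : Y) = y ∧ ∀ i, τ (w i) = some (w (i + 1) : Y) := by
  classical
  have hy' : ∃ j : ℕ, 1 ≤ j ∧ ∃ u : ℕ → Y, u 0 = y ∧ u j = y ∧
      ∀ i < j, u i ∈ Z ∧ τ (u i) = some (u (i + 1)) := hy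
  obtain ⟨j, ⟨hj1, u, hu0, huj, hu⟩, hmin⟩ : ∃ j : ℕ, (1 ≤ j ∧ ∃ u : ℕ → Y, u 0 = y ∧ u j = y ∧
      ∀ i < j, u i ∈ Z ∧ τ (u i) = some (u (i + 1))) ∧ ∀ m < j, ¬ (1 ≤ m ∧ ∃ u : ℕ → Y, u 0 = y ∧
      u m = y ∧ ∀ i < m, u i ∈ Z ∧ τ (u i) = some (u (i + 1))) :=
    ⟨Nat.find hy', Nat.find_spec hy', fun m hm => Nat.find_min hy' hm⟩
  have hstep : ∀ a b m, a < b → b + m ≤ j → u a = u b → u (a + m) = u (b + m) := by
    intro a b m hab
    induction m with
    | zero => intro _ h; simpa using h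
    | succ m ih =>
      intro hbm h
      have h1 := ih (by omega) h
      have h2 := (hu (a + m) (by omega)).2
      have h3 := (hu (b + m) (by omega)).2
      rw [h1, h3] at h2
      exact (Option.some.inj h2).symm
  have hinj : ∀ a b, a < b → b < j → u a ≠ u b := by
    intro a b hab hbj h
    have h1 := hstep a b (j - b) hab (by omega) h
    rw [Nat.add_sub_cancel' hbj.le, huj] at h1
    exact hmin (a + (j - b)) (by omega)
      ⟨by omega, u, hu0, h1, fun i hi => hu i (by omega)⟩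
  obtain ⟨k, rfl⟩ : ∃ k, j = k + 1 := ⟨j - 1, by omega⟩
  let w : Fin (k + 1) ↪ {x // x ∈ Z} := ⟨fun i => ⟨u i, (hu i i.2).1⟩, by
    intro a b hab
    have h1 : u a = u b := congrArg Subtype.val hab
    by_contra hne
    rcases lt_or_gt_of_ne (fun h => hne (Fin.ext h) : (a : ℕ) ≠ b) with h | h
    · exact hinj a b h b.2 h1
    · exact hinj b a h a.2 h1.symm⟩
  have hcard : k + 1 ≤ Z.card := by
    have := Fintype.card_le_of_embedding w
    simpa using this
  refine ⟨k, hcard, w, hu0, fun i => ?_⟩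
  show τ (u i) = some (u ((i + 1 : Fin (k + 1)) : ℕ))
  rw [(hu i i.2).2]
  congr 1
  by_cases hi : i = Fin.last k
  · subst hi
    rw [Fin.last_add_one, Fin.val_last, huj, Fin.val_zero, hu0]
  · rw [Fin.val_add_one_of_lt (lt_of_le_of_ne (Fin.le_last i) hi)]

open Classical in
/-- the number of families of values with the given closed path -/
private theorem cnt_w54 {Y B : Type} [Fintype Y] (V : Y → Finset B) (t : B → Option Y)
    (Z : Finset Y)
    (h : ∀ y ∈ Z, ∀ y' ∈ Z, Z.card * ((V y).filter fun b => t b = some y').card ≤ (V y).card)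
    (k : ℕ) (w : Fin (k + 1) ↪ {x // x ∈ Z}) :
    Z.card ^ (k + 1) * ((Fintype.piFinset V).filter fun v =>
      ∀ i, t (v (w i)) = some (w (i + 1) : Y)).card ≤ ∏ y, (V y).card := by
  have h1 : ((Fintype.piFinset V).filter fun v => ∀ i, t (v (w i)) = some (w (i + 1) : Y)) =
     Fintype.piFinset (fun y => (V y).filter fun b =>
      ∀ i, (w i : Y) = y → t b = some (w (i + 1) : Y)) := by
    ext v
    simp only [Finset.mem_filter, Fintype.mem_piFinset]
    constructor
    · rintro ⟨h1, h2⟩ y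
      exact ⟨h1 y, fun i hi => by rw [← hi]; exact h2 i⟩
    · intro h1
      exact ⟨fun y => (h1 y).1, fun i => (h1 (w i)).2 i rfl⟩
  rw [h1, Fintype.card_piFinset]
  have h2 : Z.card ^ (k + 1) = ∏ y : Y, (if ∃ i, (w i : Y) = y then Z.card else 1) := by
    rw [Finset.prod_ite, Finset.prod_const, Finset.prod_const_one, mul_one]
    congr 1
    have h3 : (Finset.univ.filter fun y : Y => ∃ i, (w i : Y) = y) =
        Finset.univ.map (w.trans (Function.Embedding.subtype _)) := by
      ext y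
      simp
    rw [h3, Finset.card_map, Finset.card_univ, Fintype.card_fin]
  rw [h2, ← Finset.prod_mul_distrib]
  apply Finset.prod_le_prod'
  intro y _
  split_ifs with hy
  · obtain ⟨i, rfl⟩ := hy
    refine le_trans (Nat.mul_le_mul_left _ (Finset.card_le_card ?_))
      (h (w i) (w i).2 (w (i + 1)) (w (i + 1)).2)
    intro b hb
    rw [Finset.mem_filter] at hb ⊢
    exact ⟨hb.1, hb.2 i rfl⟩
  · rw [one_mul]
    exact Finset.card_le_card (Finset.filter_subset _ _)

/-- the sum of the probabilities -/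
private theorem sum_a54 (z s : ℕ) :
    (s : ℝ) * ∑ k ∈ Finset.range z, ((z.descFactorial (k + 1) : ℝ) / (z : ℝ) ^ (k + 1)) ≤
      (s : ℝ) ^ 2 + z := by
  rcases Nat.eq_zero_or_pos z with rfl | hz
  · simp
  have hz' : (0 : ℝ) < z := by exact_mod_cast hz
  set a : ℕ → ℝ := fun j => (z.descFactorial j : ℝ) / (z : ℝ) ^ j with ha
  have ha0 : ∀ j, 0 ≤ a j := fun j => by positivity
  have ha1 : ∀ j, a j ≤ 1 := fun j => by
    simp only [ha]
    rw [div_le_one (by positivity)]
    exact_mod_cast Nat.descFactorial_le_pow z j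
  have hstep : ∀ j ≤ z, (j : ℝ) * a j = z * (a j - a (j + 1)) := by
    intro j hj
    simp only [ha]
    rw [Nat.descFactorial_succ, Nat.cast_mul, Nat.cast_sub hj]
    field_simp
    ring
  have hterm : ∀ k ∈ Finset.range z, (s : ℝ) * a (k + 1) ≤
      (if k + 1 < s then (s : ℝ) else 0) + z * (a (k + 1) - a (k + 2)) := by
    intro k hk
    have hk' : k + 1 ≤ z := Finset.mem_range.1 hk
    rw [← hstep (k + 1) hk']
    have h0 := ha0 (k + 1)
    have h1 := ha1 (k + 1)
    have hs0 : (0 : ℝ) ≤ s := Nat.cast_nonneg s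
    split_ifs with hks
    · have : (0 : ℝ) ≤ ((k + 1 : ℕ) : ℝ) * a (k + 1) := by positivity
      nlinarith
    · have h2 : (s : ℝ) ≤ ((k + 1 : ℕ) : ℝ) := by exact_mod_cast not_lt.1 hks
      rw [zero_add]
      exact mul_le_mul_of_nonneg_right h2 h0
  have hsum : ∑ k ∈ Finset.range z, (if k + 1 < s then (s : ℝ) else 0) ≤ (s : ℝ) ^ 2 := by
    rw [← Finset.sum_filter, Finset.sum_const, nsmul_eq_mul, pow_two]
    apply mul_le_mul_of_nonneg_right _ (Nat.cast_nonneg s)
    have : ((Finset.range z).filter fun k => k + 1 < s) ⊆ Finset.range s := by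
      intro k hk
      rw [Finset.mem_filter] at hk
      rw [Finset.mem_range]
      omega
    have h3 := Finset.card_le_card this
    rw [Finset.card_range] at h3
    exact_mod_cast h3
  have htel : ∑ k ∈ Finset.range z, (z : ℝ) * (a (k + 1) - a (k + 2)) ≤ z := by
    rw [← Finset.mul_sum, Finset.sum_range_sub' (fun k => a (k + 1))]
    have h0 := ha0 (z + 1)
    have h1 := ha1 (0 + 1)
    nlinarith
  calc (s : ℝ) * ∑ k ∈ Finset.range z, ((z.descFactorial (k + 1) : ℝ) / (z : ℝ) ^ (k + 1))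
      = ∑ k ∈ Finset.range z, (s : ℝ) * a (k + 1) := by rw [Finset.mul_sum]
    _ ≤ ∑ k ∈ Finset.range z,
        ((if k + 1 < s then (s : ℝ) else 0) + z * (a (k + 1) - a (k + 2))) :=
        Finset.sum_le_sum hterm
    _ ≤ (s : ℝ) ^ 2 + z := by
        rw [Finset.sum_add_distrib]
        exact add_le_add hsum htel

open Classical in
theorem cyc_sum {Y B : Type} [Fintype Y] (V : Y → Finset B) (t : B → Option Y) (Z : Finset Y)
    (h : ∀ y ∈ Z, ∀ y' ∈ Z, Z.card * ((V y).filter fun b => t b = some y').card ≤ (V y).card)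
    (s : ℕ) (hs : 1 ≤ s) :
    s * ∑ v ∈ Fintype.piFinset V, (cyc Z fun y => t (v y)).ncard ≤
      (s ^ 2 + Z.card) * ∏ y, (V y).card := by
  set z := Z.card with hz
  set M := ∏ y, (V y).card with hM
  have h1 : ∀ τ : Y → Option Y, (cyc Z τ).ncard ≤ ∑ k ∈ Finset.range z,
      (Finset.univ.filter fun w : Fin (k + 1) ↪ {x // x ∈ Z} =>
        ∀ i, τ (w i) = some (w (i + 1) : Y)).card := by
    intro τ
    have hsub : cyc Z τ ⊆ ((Finset.range z).biUnion fun k =>
        (Finset.univ.filter fun w : Fin (k + 1) ↪ {x // x ∈ Z} =>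
          ∀ i, τ (w i) = some (w (i + 1) : Y)).image fun w => (w 0 : Y) : Finset Y) := by
      intro y hy
      obtain ⟨k, hk, w, hw0, hw⟩ := cyc_sub54 Z τ y hy
      rw [Finset.mem_coe, Finset.mem_biUnion]
      refine ⟨k, Finset.mem_range.2 hk, ?_⟩
      rw [Finset.mem_image]
      exact ⟨w, Finset.mem_filter.2 ⟨Finset.mem_univ _, hw⟩, hw0⟩
    calc (cyc Z τ).ncard ≤ _ := Set.ncard_le_ncard hsub (Finset.finite_toSet _)
      _ = _ := Set.ncard_coe_finset _
      _ ≤ _ := Finset.card_biUnion_le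
      _ ≤ _ := Finset.sum_le_sum fun k _ => Finset.card_image_le
  have h2 : ∑ v ∈ Fintype.piFinset V, (cyc Z fun y => t (v y)).ncard ≤
      ∑ k ∈ Finset.range z, ∑ w : Fin (k + 1) ↪ {x // x ∈ Z},
        ((Fintype.piFinset V).filter fun v => ∀ i, t (v (w i)) = some (w (i + 1) : Y)).card := by
    calc ∑ v ∈ Fintype.piFinset V, (cyc Z fun y => t (v y)).ncard
        ≤ ∑ v ∈ Fintype.piFinset V, ∑ k ∈ Finset.range z,
          (Finset.univ.filter fun w : Fin (k + 1) ↪ {x // x ∈ Z} =>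
            ∀ i, t (v (w i)) = some (w (i + 1) : Y)).card :=
          Finset.sum_le_sum fun v _ => h1 fun y => t (v y)
      _ = ∑ k ∈ Finset.range z, ∑ v ∈ Fintype.piFinset V,
          (Finset.univ.filter fun w : Fin (k + 1) ↪ {x // x ∈ Z} =>
            ∀ i, t (v (w i)) = some (w (i + 1) : Y)).card := Finset.sum_comm
      _ = _ := by
          refine Finset.sum_congr rfl fun k _ => ?_
          simp only [Finset.card_filter]
          exact Finset.sum_comm
  have h3 : ∀ k ∈ Finset.range z, ((∑ w : Fin (k + 1) ↪ {x // x ∈ Z},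
      ((Fintype.piFinset V).filter fun v =>
        ∀ i, t (v (w i)) = some (w (i + 1) : Y)).card : ℕ) : ℝ) ≤
      (M : ℝ) * ((z.descFactorial (k + 1) : ℝ) / (z : ℝ) ^ (k + 1)) := by
    intro k hk
    have hz0 : 0 < z := by
      have := Finset.mem_range.1 hk
      omega
    have hz' : (0 : ℝ) < z := by exact_mod_cast hz0
    rw [← mul_div_assoc, le_div_iff₀ (by positivity)]
    have h4 : z ^ (k + 1) * ∑ w : Fin (k + 1) ↪ {x // x ∈ Z},
        ((Fintype.piFinset V).filter fun v =>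
          ∀ i, t (v (w i)) = some (w (i + 1) : Y)).card ≤ z.descFactorial (k + 1) * M := by
      rw [Finset.mul_sum]
      calc _ ≤ ∑ w : Fin (k + 1) ↪ {x // x ∈ Z}, M :=
            Finset.sum_le_sum fun w _ => cnt_w54 V t Z h k w
        _ = z.descFactorial (k + 1) * M := by
            rw [Finset.sum_const, Finset.card_univ, Fintype.card_embedding_eq, Fintype.card_fin,
              Fintype.card_coe, smul_eq_mul]
    have h5 : (z : ℝ) ^ (k + 1) * ((∑ w : Fin (k + 1) ↪ {x // x ∈ Z},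
        ((Fintype.piFinset V).filter fun v =>
          ∀ i, t (v (w i)) = some (w (i + 1) : Y)).card : ℕ) : ℝ) ≤
        (z.descFactorial (k + 1) : ℝ) * M := by exact_mod_cast h4
    linarith
  have h6 : ((∑ v ∈ Fintype.piFinset V, (cyc Z fun y => t (v y)).ncard : ℕ) : ℝ) ≤
      (M : ℝ) * ∑ k ∈ Finset.range z, ((z.descFactorial (k + 1) : ℝ) / (z : ℝ) ^ (k + 1)) := by
    rw [Finset.mul_sum]
    refine le_trans (Nat.cast_le.2 h2) ?_
    rw [Nat.cast_sum]
    exact Finset.sum_le_sum h3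
  have h7 := sum_a54 z s
  have h8 : (s : ℝ) * ((∑ v ∈ Fintype.piFinset V, (cyc Z fun y => t (v y)).ncard : ℕ) : ℝ) ≤
      ((s : ℝ) ^ 2 + z) * M := by
    calc (s : ℝ) * ((∑ v ∈ Fintype.piFinset V, (cyc Z fun y => t (v y)).ncard : ℕ) : ℝ)
        ≤ s * ((M : ℝ) * ∑ k ∈ Finset.range z,
          ((z.descFactorial (k + 1) : ℝ) / (z : ℝ) ^ (k + 1))) :=
          mul_le_mul_of_nonneg_left h6 (Nat.cast_nonneg s)
      _ = (s * ∑ k ∈ Finset.range z,
          ((z.descFactorial (k + 1) : ℝ) / (z : ℝ) ^ (k + 1))) * M := by ring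
      _ ≤ _ := mul_le_mul_of_nonneg_right h7 (Nat.cast_nonneg M)
  exact_mod_cast h8

end Pool.Agent.Helper52.DEG
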