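import Pool.Agent.Helper52.DEG.Cnt2
import Pool.Agent.Helper52.DEG.RM

/-!
# DEG-BADCYC: few families of values have many closed points on cycles

For `k ∣ m`, `k ≥ 1`, `q = p ^ k` the hypothesis of `cyc_sum` for `Z p K k` holds: `card_Z`,
`card_tgt`, `card_V` (`dg y = k` on `Z p K k`).  With `s = q`: `q ∑_v ncard ≤ (q ^ 2 + (Z p K k).card) M` and
`(Z p K k).card ≤ (q ^ 3 - 1) / (q - 1) = q ^ 2 + q + 1`, so `∑_v ncard ≤ 3 q M` (`2 q ^ 2 + q + 1 ≤ 3 q ^ 2`).
By Markov the number of `v` with `12 m q < ncard` is at most `M / (4 m)`; there are at most `m` divisors `k` of `m`.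
-/

set_option autoImplicit false

namespace Pool.Agent.Helper52.DEG

open Pool.Agent.Helper87.LD

variable {p : ℕ} [Fact p.Prime] {K : Type} [Field K] [CharP K p] [Fintype K] {m : ℕ}
  (hK : Fintype.card K = p ^ m)
include hK

open Classical in
/-- the expected number of closed points of degree `k` on cycles -/
private theorem sum_cyc76 (hm : 1 ≤ m) (hp : 5 ≤ p) {k : ℕ} (hk : k ∣ m) (hk1 : 1 ≤ k) :
    ∑ v ∈ Fintype.piFinset (V (p := p) (K := K)),
      (cyc (Z p K k) fun y => tgt p (v y)).ncard ≤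
      3 * p ^ k * ∏ y, (V (p := p) (K := K) y).card := by
  set q := p ^ k with hq
  have hq5 : 5 ≤ q := by
    calc 5 ≤ p := hp
      _ = p ^ 1 := (pow_one p).symm
      _ ≤ p ^ k := Nat.pow_le_pow_right (by omega) hk1
  set z := (Z p K k).card with hz
  set M := ∏ y, (V (p := p) (K := K) y).card with hM
  have hcz : z * (k * (q - 1)) ≤ q ^ 3 - 1 := card_Z hK hm hk hk1
  have hyp : ∀ y ∈ Z p K k, ∀ y' ∈ Z p K k,
      z * ((V y).filter fun b => tgt p b = some y').card ≤ (V y).card := by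
    intro y hy y' hy'
    have h1 := card_tgt hK hm hy hy'
    have h2 := card_V hK hm y
    have h3 : dg y = k := by
      have := hy
      unfold Z at this
      exact (Finset.mem_filter.1 this).2
    rw [h2, h3]
    calc z * ((V y).filter fun b => tgt p b = some y').card ≤ z * (k * (q - 1)) :=
          Nat.mul_le_mul_left _ h1
      _ ≤ q ^ 3 - 1 := hcz
      _ ≤ q ^ 3 := Nat.sub_le _ _
  have hcs := cyc_sum (V (p := p) (K := K)) (tgt p) (Z p K k) hyp q (by omega)
  -- the number of closed points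
  have hz1 : z ≤ q ^ 2 + q + 1 := by
    obtain ⟨r, hr⟩ : ∃ r, q = r + 1 := ⟨q - 1, by omega⟩
    have hr4 : 4 ≤ r := by omega
    have h4 : z * r ≤ q ^ 3 - 1 := by
      refine le_trans (Nat.mul_le_mul_left _ ?_) hcz
      have : q - 1 = r := by omega
      rw [this]
      exact Nat.le_mul_of_pos_left _ hk1
    have h5 : q ^ 3 - 1 = r * (q ^ 2 + q + 1) := by
      have : r * (q ^ 2 + q + 1) + 1 = q ^ 3 := by
        rw [hr]; ring
      omega
    rw [h5, mul_comm] at h4
    exact Nat.le_of_mul_le_mul_left h4 (by omega)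
  have h6 : q ^ 2 + z ≤ 3 * q * q := by nlinarith
  have h7 : q * ∑ v ∈ Fintype.piFinset (V (p := p) (K := K)),
      (cyc (Z p K k) fun y => tgt p (v y)).ncard ≤ q * (3 * q * M) := by
    calc _ ≤ (q ^ 2 + z) * M := hcs
      _ ≤ 3 * q * q * M := Nat.mul_le_mul_right _ h6
      _ = q * (3 * q * M) := by ring
  exact Nat.le_of_mul_le_mul_left h7 (by omega)

open Classical in
/-- Markov's inequality -/
private theorem markov76 (hm : 1 ≤ m) (hp : 5 ≤ p) {k : ℕ} (hk : k ∣ m) (hk1 : 1 ≤ k) :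
    4 * m * ((Fintype.piFinset (V (p := p) (K := K))).filter fun v =>
      12 * m * p ^ k < (cyc (Z p K k) fun y => tgt p (v y)).ncard).card ≤
      ∏ y, (V (p := p) (K := K) y).card := by
  have h1 := sum_cyc76 hK hm hp hk hk1
  set P := Fintype.piFinset (V (p := p) (K := K)) with hP
  set M := ∏ y, (V (p := p) (K := K) y).card with hM
  set f : (Cl p K → Fin 3 → K) → ℕ := fun v => (cyc (Z p K k) fun y => tgt p (v y)).ncard with hf
  have h2 : (P.filter fun v => 12 * m * p ^ k < f v).card * (12 * m * p ^ k) ≤ ∑ v ∈ P, f v := by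
    calc _ = ∑ v ∈ P.filter (fun v => 12 * m * p ^ k < f v), 12 * m * p ^ k := by
          rw [Finset.sum_const, smul_eq_mul]
      _ ≤ ∑ v ∈ P.filter (fun v => 12 * m * p ^ k < f v), f v :=
          Finset.sum_le_sum fun v hv => (Finset.mem_filter.1 hv).2.le
      _ ≤ ∑ v ∈ P, f v := Finset.sum_le_sum_of_subset (Finset.filter_subset _ _)
  have hq : 0 < 3 * p ^ k := by
    have : 0 < p ^ k := pow_pos (by omega) _
    omega
  refine Nat.le_of_mul_le_mul_left ?_ hq
  calc 3 * p ^ k * (4 * m * (P.filter fun v => 12 * m * p ^ k < f v).card)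
      = (P.filter fun v => 12 * m * p ^ k < f v).card * (12 * m * p ^ k) := by ring
    _ ≤ ∑ v ∈ P, f v := h2
    _ ≤ 3 * p ^ k * M := h1

open Classical in
theorem card_bad_cyc (hm : 1 ≤ m) (hp : 5 ≤ p) :
    4 * ((Fintype.piFinset (V (p := p) (K := K))).filter fun v => ∃ k, k ∣ m ∧
      12 * m * p ^ k < (cyc (Z p K k) fun y => tgt p (v y)).ncard).card ≤
      ∏ y, (V (p := p) (K := K) y).card := by
  set P := Fintype.piFinset (V (p := p) (K := K)) with hP
  set M := ∏ y, (V (p := p) (K := K) y).card with hM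
  have hsub : (P.filter fun v => ∃ k, k ∣ m ∧
      12 * m * p ^ k < (cyc (Z p K k) fun y => tgt p (v y)).ncard) ⊆
      m.divisors.biUnion fun k => P.filter fun v =>
        12 * m * p ^ k < (cyc (Z p K k) fun y => tgt p (v y)).ncard := by
    intro v hv
    obtain ⟨hv1, k, hk, hv2⟩ := Finset.mem_filter.1 hv
    exact Finset.mem_biUnion.2 ⟨k, Nat.mem_divisors.2 ⟨hk, by omega⟩, Finset.mem_filter.2 ⟨hv1, hv2⟩⟩
  have h1 := (Finset.card_le_card hsub).trans Finset.card_biUnion_le
  have h2 : ∀ k ∈ m.divisors, 4 * m * (P.filter fun v =>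
      12 * m * p ^ k < (cyc (Z p K k) fun y => tgt p (v y)).ncard).card ≤ M := fun k hk =>
    markov76 hK hm hp (Nat.dvd_of_mem_divisors hk) (Nat.pos_of_mem_divisors hk)
  refine Nat.le_of_mul_le_mul_left ?_ (show 0 < m by omega)
  calc m * (4 * (P.filter fun v => ∃ k, k ∣ m ∧
        12 * m * p ^ k < (cyc (Z p K k) fun y => tgt p (v y)).ncard).card)
      ≤ m * (4 * ∑ k ∈ m.divisors, (P.filter fun v =>
        12 * m * p ^ k < (cyc (Z p K k) fun y => tgt p (v y)).ncard).card) :=
        Nat.mul_le_mul_left _ (Nat.mul_le_mul_left _ h1)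
    _ = ∑ k ∈ m.divisors, 4 * m * (P.filter fun v =>
        12 * m * p ^ k < (cyc (Z p K k) fun y => tgt p (v y)).ncard).card := by
        rw [Finset.mul_sum, Finset.mul_sum]
        exact Finset.sum_congr rfl fun k _ => by ring
    _ ≤ ∑ k ∈ m.divisors, M := Finset.sum_le_sum h2
    _ = m.divisors.card * M := by rw [Finset.sum_const, smul_eq_mul]
    _ ≤ m * M := Nat.mul_le_mul_right _ (Nat.card_divisors_le_self m)

end Pool.Agent.Helper52.DEG
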