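import Pool.Agent.Helper52.DEG.Cnt2
import Pool.Agent.Helper52.DEG.RM

/-!
# DEG-BADZERO: few families have a zero value

Union bound: for fixed `y` there are `M / q_y ^ 3` families with `v y = 0`; the closed points of degree `k`
contribute `(Z p K k).card / q ^ 3 ≤ (5 / 4) / 5 ^ k`, and `∑_(k ≥ 1) (5 / 4) / 5 ^ k = 5 / 16 ≤ 1 / 2`.
-/

set_option autoImplicit false

namespace Pool.Agent.Helper52.DEG

open Pool.Agent.Helper87.LD

private theorem geom30 (n : ℕ) :
    ∑ k ∈ Finset.range n, (5 / 4 : ℝ) / 5 ^ (k + 1) ≤ 5 / 16 - (5 / 16) / 5 ^ n := by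
  induction n with
  | zero => norm_num
  | succ n ih =>
    rw [Finset.sum_range_succ]
    have h5 : (0 : ℝ) < 5 ^ n := by positivity
    have e : (5 / 4 : ℝ) / 5 ^ (n + 1) = (5 / 16) / 5 ^ n - (5 / 16) / 5 ^ (n + 1) := by
      rw [pow_succ]
      field_simp
      norm_num
    linarith

private theorem term30 {p k z : ℕ} (hp : 5 ≤ p) (hk1 : 1 ≤ k)
    (hz : z * (k * (p ^ k - 1)) ≤ (p ^ k) ^ 3 - 1) :
    (z : ℝ) * (1 / ((p : ℝ) ^ k) ^ 3) ≤ (5 / 4) / 5 ^ k := by
  have hq5 : 5 ^ k ≤ p ^ k := Nat.pow_le_pow_left hp k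
  have h55 : 5 ≤ 5 ^ k := by
    calc 5 = 5 ^ 1 := by norm_num
      _ ≤ 5 ^ k := Nat.pow_le_pow_right (by norm_num) hk1
  have hq : 5 ≤ p ^ k := le_trans h55 hq5
  set q : ℕ := p ^ k with hqd
  have h1 : z * (q - 1) ≤ q ^ 3 := by
    calc z * (q - 1) ≤ z * (k * (q - 1)) := by
          apply Nat.mul_le_mul_left
          exact Nat.le_mul_of_pos_left _ hk1
      _ ≤ q ^ 3 - 1 := hz
      _ ≤ q ^ 3 := Nat.sub_le _ _
  have h2 : (z : ℝ) * ((q : ℝ) - 1) ≤ (q : ℝ) ^ 3 := by
    have h3 : ((z * (q - 1) : ℕ) : ℝ) ≤ ((q ^ 3 : ℕ) : ℝ) := by exact_mod_cast h1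
    have e1 : ((z * (q - 1) : ℕ) : ℝ) = (z : ℝ) * ((q : ℝ) - 1) := by
      rw [Nat.cast_mul, Nat.cast_sub (by omega), Nat.cast_one]
    have e2 : ((q ^ 3 : ℕ) : ℝ) = (q : ℝ) ^ 3 := Nat.cast_pow q 3
    rw [e1, e2] at h3
    exact h3
  have hq' : (5 : ℝ) ≤ (q : ℝ) := by exact_mod_cast hq
  have hq5' : (5 : ℝ) ^ k ≤ (q : ℝ) := by exact_mod_cast hq5
  have hqc : ((p : ℝ) ^ k) = (q : ℝ) := by rw [hqd]; push_cast; rfl
  rw [hqc]
  have hq3 : (0 : ℝ) < (q : ℝ) ^ 3 := by positivity
  have h5k : (0 : ℝ) < (5 : ℝ) ^ k := by positivity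
  rw [mul_one_div, div_le_div_iff₀ hq3 h5k]
  -- z * 5 ^ k ≤ 5 / 4 * q ^ 3
  have hz0 : (0 : ℝ) ≤ (z : ℝ) := Nat.cast_nonneg z
  have h4 : (z : ℝ) * 5 ^ k ≤ (z : ℝ) * q := mul_le_mul_of_nonneg_left hq5' hz0
  have h5 : (z : ℝ) * q ≤ 5 / 4 * ((z : ℝ) * ((q : ℝ) - 1)) := by nlinarith
  linarith

variable {p : ℕ} [Fact p.Prime] {K : Type} [Field K] [CharP K p] [Fintype K] {m : ℕ}
  (hK : Fintype.card K = p ^ m)
include hK

open Classical in
private theorem one30 (hm : 1 ≤ m) (y : Cl p K) :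
    (((Fintype.piFinset (V (p := p) (K := K))).filter fun v => v y = 0).card : ℝ) ≤
      (∏ y, ((V (p := p) (K := K) y).card : ℝ)) * (1 / ((p : ℝ) ^ dg y) ^ 3) := by
  have hsub : ((Fintype.piFinset (V (p := p) (K := K))).filter fun v => v y = 0) ⊆
      Fintype.piFinset (Function.update (V (p := p) (K := K)) y {0}) := by
    intro v hv
    rw [Finset.mem_filter, Fintype.mem_piFinset] at hv
    rw [Fintype.mem_piFinset]
    intro y'
    by_cases h : y' = y
    · subst h
      rw [Function.update_self, Finset.mem_singleton]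
      exact hv.2
    · rw [Function.update_of_ne h]
      exact hv.1 y'
  have h1 : ((Fintype.piFinset (V (p := p) (K := K))).filter fun v => v y = 0).card ≤
      ∏ y', (Function.update (V (p := p) (K := K)) y {0} y').card := by
    rw [← Fintype.card_piFinset]
    exact Finset.card_le_card hsub
  have h2 : (∏ y', (Function.update (V (p := p) (K := K)) y {0} y').card) * (V (p := p) (K := K) y).card =
      ∏ y', (V (p := p) (K := K) y').card := by
    rw [← Finset.mul_prod_erase Finset.univ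
      (fun y' => (Function.update (V (p := p) (K := K)) y {0} y').card) (Finset.mem_univ y),
      ← Finset.mul_prod_erase Finset.univ
      (fun y' => (V (p := p) (K := K) y').card) (Finset.mem_univ y)]
    have h3 : ∏ y' ∈ Finset.univ.erase y, (Function.update (V (p := p) (K := K)) y {0} y').card =
        ∏ y' ∈ Finset.univ.erase y, (V (p := p) (K := K) y').card := by
      apply Finset.prod_congr rfl
      intro y' hy'
      rw [Function.update_of_ne (Finset.ne_of_mem_erase hy')]
    rw [h3]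
    simp only [Function.update_self, Finset.card_singleton, one_mul]
    ring
  have hV : ((V (p := p) (K := K) y).card : ℝ) = ((p : ℝ) ^ dg y) ^ 3 := by
    rw [card_V hK hm y]
    push_cast
    rfl
  have hp0 : (0 : ℝ) < (p : ℝ) := by exact_mod_cast (Fact.out : p.Prime).pos
  have hq : (0 : ℝ) < ((p : ℝ) ^ dg y) ^ 3 := by positivity
  have h4 : (((Fintype.piFinset (V (p := p) (K := K))).filter fun v => v y = 0).card : ℝ) ≤
      ((∏ y', (Function.update (V (p := p) (K := K)) y {0} y').card : ℕ) : ℝ) := by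
    exact_mod_cast h1
  have h5 : ((∏ y', (Function.update (V (p := p) (K := K)) y {0} y').card : ℕ) : ℝ) *
      ((p : ℝ) ^ dg y) ^ 3 = ∏ y', ((V (p := p) (K := K) y').card : ℝ) := by
    rw [← hV]
    exact_mod_cast h2
  rw [← h5, mul_assoc, mul_one_div_cancel hq.ne', mul_one]
  exact h4

open Classical in
private theorem sum30 (hm : 1 ≤ m) (hp : 5 ≤ p) :
    ∑ y : Cl p K, (1 : ℝ) / ((p : ℝ) ^ dg y) ^ 3 ≤ 1 / 2 := by
  have hp0 : (0 : ℝ) < (p : ℝ) := by exact_mod_cast (Fact.out : p.Prime).pos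
  -- split according to the degree
  have hmap : ∀ y ∈ (Finset.univ : Finset (Cl p K)), dg y - 1 ∈ Finset.range m := by
    intro y _
    have h1 := dg_dvd hK y
    have h2 := Nat.le_of_dvd (by omega) h1
    have h3 := dg_pos hK hm y
    rw [Finset.mem_range]
    omega
  rw [← Finset.sum_fiberwise_of_maps_to hmap]
  calc ∑ j ∈ Finset.range m, ∑ y ∈ Finset.univ.filter (fun y : Cl p K => dg y - 1 = j),
        (1 : ℝ) / ((p : ℝ) ^ dg y) ^ 3
      ≤ ∑ j ∈ Finset.range m, (5 / 4 : ℝ) / 5 ^ (j + 1) := by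
        apply Finset.sum_le_sum
        intro j _
        have hset : Finset.univ.filter (fun y : Cl p K => dg y - 1 = j) = Z p K (j + 1) := by
          unfold Z
          ext y
          rw [Finset.mem_filter, Finset.mem_filter]
          have h3 := dg_pos hK hm y
          constructor
          · rintro ⟨_, h⟩; exact ⟨Finset.mem_univ _, by omega⟩
          · rintro ⟨_, h⟩; exact ⟨Finset.mem_univ _, by omega⟩
        rw [hset]
        have hc : ∑ y ∈ Z p K (j + 1), (1 : ℝ) / ((p : ℝ) ^ dg y) ^ 3 =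
            ((Z p K (j + 1)).card : ℝ) * (1 / ((p : ℝ) ^ (j + 1)) ^ 3) := by
          rw [Finset.sum_congr rfl (g := fun _ => (1 : ℝ) / ((p : ℝ) ^ (j + 1)) ^ 3)]
          · rw [Finset.sum_const, nsmul_eq_mul]
          · intro y hy
            unfold Z at hy
            rw [Finset.mem_filter] at hy
            rw [hy.2]
        rw [hc]
        by_cases hd : (j + 1) ∣ m
        · exact term30 hp (by omega) (card_Z hK hm hd (by omega))
        · have he : Z p K (j + 1) = ∅ := by
            unfold Z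
            rw [Finset.filter_eq_empty_iff]
            intro y _ hy
            exact hd (hy ▸ dg_dvd hK y)
          rw [he, Finset.card_empty]
          push_cast
          rw [zero_mul]
          positivity
    _ ≤ 5 / 16 - (5 / 16) / 5 ^ m := geom30 m
    _ ≤ 1 / 2 := by
        have : (0 : ℝ) ≤ (5 / 16) / 5 ^ m := by positivity
        linarith

open Classical in
theorem card_bad_zero (hm : 1 ≤ m) (hp : 5 ≤ p) :
    2 * ((Fintype.piFinset (V (p := p) (K := K))).filter fun v => ∃ y, v y = 0).card ≤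
      ∏ y, (V (p := p) (K := K) y).card := by
  have hun : ((Fintype.piFinset (V (p := p) (K := K))).filter fun v => ∃ y, v y = 0) ⊆
      Finset.univ.biUnion fun y : Cl p K =>
        (Fintype.piFinset (V (p := p) (K := K))).filter fun v => v y = 0 := by
    intro v hv
    rw [Finset.mem_filter] at hv
    obtain ⟨h1, y, hy⟩ := hv
    rw [Finset.mem_biUnion]
    exact ⟨y, Finset.mem_univ _, Finset.mem_filter.2 ⟨h1, hy⟩⟩
  have h1 : (((Fintype.piFinset (V (p := p) (K := K))).filter fun v => ∃ y, v y = 0).card : ℝ) ≤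
      ∑ y : Cl p K, (((Fintype.piFinset (V (p := p) (K := K))).filter fun v => v y = 0).card : ℝ) := by
    have h2 := le_trans (Finset.card_le_card hun) Finset.card_biUnion_le
    exact_mod_cast h2
  have h3 : (((Fintype.piFinset (V (p := p) (K := K))).filter fun v => ∃ y, v y = 0).card : ℝ) ≤
      (∏ y, ((V (p := p) (K := K) y).card : ℝ)) * (1 / 2) := by
    refine le_trans h1 (le_trans (Finset.sum_le_sum fun y _ => one30 hK hm y) ?_)
    rw [← Finset.mul_sum]
    apply mul_le_mul_of_nonneg_left (sum30 hK hm hp)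
    exact Finset.prod_nonneg fun y _ => Nat.cast_nonneg _
  have h4 : ((2 * ((Fintype.piFinset (V (p := p) (K := K))).filter fun v => ∃ y, v y = 0).card : ℕ) : ℝ) ≤
      ((∏ y, (V (p := p) (K := K) y).card : ℕ) : ℝ) := by
    push_cast
    linarith
  exact_mod_cast h4

end Pool.Agent.Helper52.DEG
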