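import Pool.Agent.Helper52.DEG.Defs

/-!
# DEG-CNT: Frobenius, closed points, the subfields

`K` has `p ^ m` elements.  `fx p k K` is the subfield of the `z` with `z ^ (p ^ k) = z`.

* `card_fx`: for `k ∣ m`, `k ≥ 1`: `p ^ k - 1` divides `p ^ m - 1`, the unit group of `K` is cyclic of order
  `p ^ m - 1`, so it has exactly `p ^ k - 1` elements with `z ^ (p ^ k - 1) = 1` (`IsCyclic.card_pow_eq_one...`
  or `Polynomial.card_roots`, `GaloisField`); add zero.
* `phi_iter`: `(phi p)^[k] a = a ^ (p ^ k)` coordinatewise.  `phi_m`: `(phi p)^[m] a = a`, since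
  `z ^ (p ^ m) = z` in `K` (`FiniteField.pow_card`).  `dg_dvd`, `dg_pos`: `Function.minimalPeriod`.
* `rp_pow`: the coordinates of `rp y` are in `fx p (dg y) K`.  `exists_iter`: if `mk p a = y` then
  `a = (phi p)^[i] (rp y)` with `i < dg y` (by definition `(phi p)^[k] a = (phi p)^[l] (rp y)`; apply `phi`
  until the exponent of `a` is a multiple of `m`, reduce `i` modulo the minimal period).  `dgp_eq`: then `a`
  has the same degree (its period is the same as that of `rp y`, as `phi` is injective; `minimalPeriod_apply`).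
-/

set_option autoImplicit false

namespace Pool.Agent.Helper52.DEG

open Pool.Agent.Helper87.LD

noncomputable section

variable {p : ℕ} [Fact p.Prime] {K : Type} [Field K] [CharP K p]

/-- the subfield of the `z` with `z ^ (p ^ k) = z` -/
def fx (p : ℕ) [Fact p.Prime] (k : ℕ) (K : Type) [Field K] [CharP K p] : Subfield K where
  carrier := {z | z ^ (p ^ k) = z}
  mul_mem' := fun {a b} ha hb => by
    show (a * b) ^ (p ^ k) = a * b
    rw [mul_pow, show a ^ (p ^ k) = a from ha, show b ^ (p ^ k) = b from hb]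
  one_mem' := one_pow _
  add_mem' := fun {a b} ha hb => by
    show (a + b) ^ (p ^ k) = a + b
    rw [add_pow_char_pow, show a ^ (p ^ k) = a from ha, show b ^ (p ^ k) = b from hb]
  zero_mem' := zero_pow (pow_ne_zero _ (Fact.out : p.Prime).ne_zero)
  neg_mem' := fun {a} ha => by
    show (-a) ^ (p ^ k) = -a
    have h1 : (0 : K) ^ (p ^ k) = 0 := zero_pow (pow_ne_zero _ (Fact.out : p.Prime).ne_zero)
    have h2 := add_pow_char_pow (p := p) (n := k) a (-a)
    rw [add_neg_cancel, h1, show a ^ (p ^ k) = a from ha] at h2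
    exact (neg_eq_of_add_eq_zero_right h2.symm).symm
  inv_mem' := fun a ha => by
    show a⁻¹ ^ (p ^ k) = a⁻¹
    rw [inv_pow, show a ^ (p ^ k) = a from ha]

theorem mem_fx {k : ℕ} {z : K} : z ∈ fx p k K ↔ z ^ (p ^ k) = z := Iff.rfl

omit [CharP K p] in
theorem phi_iter (a : Pt K) (k : ℕ) (i : Fin 3) : ((phi p)^[k] a).1 i = a.1 i ^ (p ^ k) := by
  induction k with
  | zero => simp
  | succ k ih =>
    rw [Function.iterate_succ_apply', pow_succ, pow_mul, ← ih]
    rfl

section card

variable [Fintype K] {m : ℕ} (hK : Fintype.card K = p ^ m)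
include hK

theorem card_fx {k : ℕ} (hk : k ∣ m) (hk1 : 1 ≤ k) : Nat.card (fx p k K) = p ^ k := by
  have hp : 1 < p := (Fact.out : p.Prime).one_lt
  have hpk : 1 ≤ p ^ k := Nat.one_le_pow _ _ (by omega)
  have hdvd : p ^ k - 1 ∣ p ^ m - 1 := by
    obtain ⟨c, rfl⟩ := hk
    have h1 := Nat.sub_dvd_pow_sub_pow (p ^ k) 1 c
    rwa [one_pow, ← pow_mul] at h1
  have hker : Nat.card (powMonoidHom (p ^ k - 1) : Kˣ →* Kˣ).ker = p ^ k - 1 := by
    rw [IsCyclic.card_powMonoidHom_ker, Nat.card_units, Nat.card_eq_fintype_card, hK]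
    exact Nat.gcd_eq_right hdvd
  let F : Option (powMonoidHom (p ^ k - 1) : Kˣ →* Kˣ).ker → fx p k K := fun o =>
    match o with
    | none => 0
    | some u => ⟨((u : Kˣ) : K), by
        have h1 : (u : Kˣ) ^ (p ^ k - 1) = 1 := u.2
        have h2 : (((u : Kˣ) : K)) ^ (p ^ k - 1) = 1 := by
          rw [← Units.val_pow_eq_pow_val, h1, Units.val_one]
        show (((u : Kˣ) : K)) ^ (p ^ k) = ((u : Kˣ) : K)
        calc (((u : Kˣ) : K)) ^ (p ^ k) = (((u : Kˣ) : K)) ^ (p ^ k - 1 + 1) := by
              rw [Nat.sub_add_cancel hpk]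
          _ = ((u : Kˣ) : K) := by rw [pow_succ, h2, one_mul]⟩
  have hF : Function.Bijective F := by
    constructor
    · rintro (_ | u) (_ | v) h
      · rfl
      · exact absurd (congrArg Subtype.val h).symm (Units.ne_zero (v : Kˣ))
      · exact absurd (congrArg Subtype.val h) (Units.ne_zero (u : Kˣ))
      · have h1 : ((u : Kˣ) : K) = ((v : Kˣ) : K) := congrArg Subtype.val h
        rw [Subtype.ext (Units.ext h1)]
    · rintro ⟨z, hz⟩
      by_cases h0 : z = 0
      · subst h0
        exact ⟨none, rfl⟩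
      · have h1 : z ^ (p ^ k - 1) = 1 := by
          have h2 : z ^ (p ^ k - 1) * z = z := by
            rw [← pow_succ, Nat.sub_add_cancel hpk]
            exact hz
          exact mul_right_cancel₀ h0 (h2.trans (one_mul z).symm)
        refine ⟨some ⟨Units.mk0 z h0, ?_⟩, rfl⟩
        show (Units.mk0 z h0) ^ (p ^ k - 1) = 1
        exact Units.ext (by rw [Units.val_pow_eq_pow_val]; exact h1)
  rw [← Nat.card_congr (Equiv.ofBijective F hF), Finite.card_option, hker, Nat.sub_add_cancel hpk]

theorem phi_m (a : Pt K) : (phi p)^[m] a = a := by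
  refine Subtype.ext (funext fun i => ?_)
  rw [phi_iter, ← hK]
  exact FiniteField.pow_card _

theorem dg_dvd (y : Cl p K) : dg y ∣ m :=
  Function.IsPeriodicPt.minimalPeriod_dvd (phi_m hK (rp y))

theorem dg_pos (hm : 1 ≤ m) (y : Cl p K) : 1 ≤ dg y :=
  Function.IsPeriodicPt.minimalPeriod_pos hm (phi_m hK (rp y))

omit hK in
theorem rp_pow (y : Cl p K) (i : Fin 3) : (rp y).1 i ^ (p ^ dg y) = (rp y).1 i := by
  rw [← phi_iter]
  exact congrFun (congrArg Subtype.val (Function.iterate_minimalPeriod (f := phi p) (x := rp y))) i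

theorem exists_iter (hm : 1 ≤ m) {a : Pt K} {y : Cl p K} (h : mk p a = y) :
    ∃ i < dg y, a = (phi p)^[i] (rp y) := by
  obtain ⟨k, l, hkl⟩ := mk_eq.1 (h.trans (mk_rp y).symm)
  have h1 : a = (phi p)^[m * k - k + l] (rp y) := by
    have h2 : (phi p)^[m * k] a = a := by
      rw [Function.iterate_mul]
      exact Function.iterate_fixed (phi_m hK a) k
    rw [Function.iterate_add_apply, ← hkl, ← Function.iterate_add_apply,
      Nat.sub_add_cancel (Nat.le_mul_of_pos_left k hm), h2]
  refine ⟨(m * k - k + l) % dg y, Nat.mod_lt _ (dg_pos hK hm y), ?_⟩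
  have h3 := Function.iterate_mod_minimalPeriod_eq (f := phi p) (x := rp y) (n := m * k - k + l)
  exact h1.trans h3.symm

theorem dgp_eq (hm : 1 ≤ m) (a : Pt K) : dgp p a = dg (mk p a) := by
  obtain ⟨i, -, hi⟩ := exists_iter hK hm (a := a) (y := mk p a) rfl
  have hper : rp (mk p a) ∈ Function.periodicPts (phi p) :=
    Function.mk_mem_periodicPts hm (phi_m hK (rp (mk p a)))
  have h1 := Function.minimalPeriod_apply_iterate hper i
  unfold dg dgp
  rw [← h1, ← hi]

end card

end

end Pool.Agent.Helper52.DEG
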