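import Pool.Agent.Helper52.DEG.Cnt

/-!
# DEG-CNT2: counting closed points and vectors

* `card_V`: `V y` is the set of maps `Fin 3 → fx p (dg y) K`.
* `card_Z`: the map `(y, i, t) ↦ t • (phi p)^[i] (rp y)`, `y ∈ Z p K k`, `i < k`, `t ∈ fx p k K`, `t ≠ 0`,
  is injective (`lead` gives `t`, `mk` gives `y`, minimality of the period gives `i`) with values in the
  nonzero vectors over `fx p k K`.
* `card_tgt`: if `v ∈ V y` and `tgt p v = some y'`, then `v = lead v • nrm v`, `nrm v = (phi p)^[i] (rp y')`,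
  `i < k`, and `lead v ∈ fx p k K` is nonzero: so `v` is determined by `(i, lead v)`.
-/

set_option autoImplicit false

namespace Pool.Agent.Helper52.DEG

open Pool.Agent.Helper87.LD

variable {p : ℕ} [Fact p.Prime] {K : Type} [Field K] [CharP K p] [Fintype K] {m : ℕ}
  (hK : Fintype.card K = p ^ m)
include hK

open Classical in
private theorem card_fixed_12 {k : ℕ} (hk : k ∣ m) (hk1 : 1 ≤ k) :
    (Finset.univ.filter fun t : K => t ^ (p ^ k) = t).card = p ^ k := by
  have h1 : Nat.card (fx p k K) = p ^ k := card_fx hK hk hk1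
  have h2 : (Finset.univ.filter fun t : K => t ^ (p ^ k) = t).card = Nat.card (fx p k K) := by
    rw [← Fintype.card_subtype, ← Nat.card_eq_fintype_card]
    rfl
  rw [h2, h1]

open Classical in
private theorem card_units_12 {k : ℕ} (hk : k ∣ m) (hk1 : 1 ≤ k) :
    (Finset.univ.filter fun t : K => t ^ (p ^ k) = t ∧ t ≠ 0).card = p ^ k - 1 := by
  have h1 := card_fixed_12 hK hk hk1
  have h2 : (Finset.univ.filter fun t : K => t ^ (p ^ k) = t ∧ t ≠ 0) =
      (Finset.univ.filter fun t : K => t ^ (p ^ k) = t).erase 0 := by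
    ext t
    simp only [Finset.mem_filter, Finset.mem_univ, true_and, Finset.mem_erase]
    tauto
  rw [h2, Finset.card_erase_of_mem, h1]
  simp only [Finset.mem_filter, Finset.mem_univ, true_and]
  exact zero_pow (pow_ne_zero _ (Fact.out : p.Prime).ne_zero)

open Classical in
private theorem card_vec_12 {k : ℕ} (hk : k ∣ m) (hk1 : 1 ≤ k) :
    (Finset.univ.filter fun v : Fin 3 → K => ∀ i, v i ^ (p ^ k) = v i).card = (p ^ k) ^ 3 := by
  have h1 := card_fixed_12 hK hk hk1
  have h2 : (Finset.univ.filter fun v : Fin 3 → K => ∀ i, v i ^ (p ^ k) = v i) =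
      Fintype.piFinset fun _ : Fin 3 => (Finset.univ.filter fun t : K => t ^ (p ^ k) = t) := by
    ext v
    simp [Fintype.mem_piFinset]
  rw [h2, Fintype.card_piFinset]
  simp [h1]

theorem card_V (hm : 1 ≤ m) (y : Cl p K) : (V y).card = (p ^ dg y) ^ 3 := by
  classical
  rw [← card_vec_12 hK (dg_dvd hK y) (dg_pos hK hm y)]
  unfold V
  congr

omit [CharP K p] hK [Fintype K] in
private theorem mk_iter_12 (y : Cl p K) (i : ℕ) : mk p ((phi p)^[i] (rp y)) = y := by
  conv_rhs => rw [← mk_rp y]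
  exact mk_eq.2 ⟨0, i, rfl⟩

omit [CharP K p] hK in
private theorem mem_Z_12 {k : ℕ} {y : Cl p K} : y ∈ Z p K k ↔ dg y = k := by
  simp [Z]

theorem card_Z (hm : 1 ≤ m) {k : ℕ} (hk : k ∣ m) (hk1 : 1 ≤ k) :
    (Z p K k).card * (k * (p ^ k - 1)) ≤ (p ^ k) ^ 3 - 1 := by
  classical
  have h0 : (0 : Fin 3 → K) ∈ (Finset.univ.filter fun v : Fin 3 → K => ∀ i, v i ^ (p ^ k) = v i) := by
    simp only [Finset.mem_filter, Finset.mem_univ, true_and, Pi.zero_apply]
    intro _
    exact zero_pow (pow_ne_zero _ (Fact.out : p.Prime).ne_zero)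
  have hB : ((Finset.univ.filter fun v : Fin 3 → K => ∀ i, v i ^ (p ^ k) = v i).erase 0).card =
      (p ^ k) ^ 3 - 1 := by
    rw [Finset.card_erase_of_mem h0, card_vec_12 hK hk hk1]
  have hA : ((Z p K k) ×ˢ ((Finset.range k) ×ˢ
      (Finset.univ.filter fun t : K => t ^ (p ^ k) = t ∧ t ≠ 0))).card =
      (Z p K k).card * (k * (p ^ k - 1)) := by
    rw [Finset.card_product, Finset.card_product, Finset.card_range, card_units_12 hK hk hk1]
  rw [← hB, ← hA]
  refine Finset.card_le_card_of_injOn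
    (fun x => x.2.2 • ((phi p)^[x.2.1] (rp x.1)).1) ?_ ?_
  · rintro ⟨y, i, t⟩ hx
    simp only [Finset.coe_product, Set.mem_prod, Finset.mem_coe, Finset.mem_range,
      Finset.mem_filter, Finset.mem_univ, true_and] at hx
    obtain ⟨hy, hi, ht, ht0⟩ := hx
    have hy' : dg y = k := mem_Z_12.1 hy
    simp only [Finset.coe_erase, Finset.coe_filter, Finset.mem_univ, true_and]
    refine ⟨?_, ?_⟩
    · intro j
      show (t * ((phi p)^[i] (rp y)).1 j) ^ (p ^ k) = t * ((phi p)^[i] (rp y)).1 j
      rw [phi_iter, mul_pow, ht, ← pow_mul, mul_comm (p ^ i), pow_mul]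
      have := rp_pow (p := p) y j
      rw [hy'] at this
      rw [this]
    · simp only [Set.mem_singleton_iff, smul_eq_zero, not_or]
      exact ⟨ht0, Pt.ne_zero _⟩
  · rintro ⟨y, i, t⟩ hx ⟨y', i', t'⟩ hx' h
    simp only [Finset.coe_product, Set.mem_prod, Finset.mem_coe, Finset.mem_range,
      Finset.mem_filter, Finset.mem_univ, true_and] at hx hx'
    obtain ⟨hy, hi, ht, ht0⟩ := hx
    obtain ⟨hy', hi', ht', ht0'⟩ := hx'
    have hyk : dg y = k := mem_Z_12.1 hy
    simp only at h
    have e1 : t = t' := by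
      have := congrArg lead h
      rw [lead_smul, lead_smul, ((phi p)^[i] (rp y)).2, ((phi p)^[i'] (rp y')).2, mul_one,
        mul_one] at this
      exact this
    subst e1
    have e2 : (phi p)^[i] (rp y) = (phi p)^[i'] (rp y') := by
      apply Subtype.ext
      exact smul_right_injective _ ht0 h
    have e3 : y = y' := by
      have := congrArg (mk p) e2
      rwa [mk_iter_12, mk_iter_12] at this
    subst e3
    have e4 : i = i' := by
      have hp : Function.minimalPeriod (phi p) (rp y) = k := hyk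
      exact Function.iterate_injOn_Iio_minimalPeriod (f := phi p) (x := rp y)
        (by simpa [hp] using hi) (by simpa [hp] using hi') e2
    subst e4
    rfl

omit [Fact p.Prime] [CharP K p] hK [Fintype K] in
private theorem lead_fixed_12 {k : ℕ} {v : Fin 3 → K} (hv : ∀ i, v i ^ (p ^ k) = v i) :
    lead v ^ (p ^ k) = lead v := by
  unfold lead
  split_ifs
  · exact hv 0
  · exact hv 1
  · exact hv 2

open Classical in
theorem card_tgt (hm : 1 ≤ m) {k : ℕ} {y y' : Cl p K} (hy : y ∈ Z p K k) (hy' : y' ∈ Z p K k) :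
    ((V y).filter fun v => tgt p v = some y').card ≤ k * (p ^ k - 1) := by
  have hyk : dg y = k := mem_Z_12.1 hy
  have hyk' : dg y' = k := mem_Z_12.1 hy'
  have hk : k ∣ m := hyk ▸ dg_dvd hK y
  have hk1 : 1 ≤ k := hyk ▸ dg_pos hK hm y
  have hA : ((Finset.range k) ×ˢ
      (Finset.univ.filter fun t : K => t ^ (p ^ k) = t ∧ t ≠ 0)).card = k * (p ^ k - 1) := by
    rw [Finset.card_product, Finset.card_range, card_units_12 hK hk hk1]
  rw [← hA]
  refine le_trans (Finset.card_le_card ?_) (Finset.card_image_le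
    (f := fun x : ℕ × K => x.2 • ((phi p)^[x.1] (rp y')).1))
  intro v hv
  rw [Finset.mem_filter] at hv
  obtain ⟨hv1, hv2⟩ := hv
  have hv3 : ∀ i, v i ^ (p ^ k) = v i := by
    have : ∀ i, v i ^ (p ^ dg y) = v i := by
      simpa [V] using hv1
    rwa [hyk] at this
  have hne : v ≠ 0 := by
    intro h
    unfold tgt at hv2
    simp [h] at hv2
  have hmk : mk p (pt v hne) = y' := by
    unfold tgt at hv2
    rw [dif_pos hne] at hv2
    exact Option.some.inj hv2
  obtain ⟨i, hi, hiv⟩ := exists_iter hK hm hmk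
  have hl : lead v ≠ 0 := fun h => hne (lead_eq_zero.1 h)
  rw [Finset.mem_image]
  refine ⟨(i, lead v), ?_, ?_⟩
  · simp only [Finset.mem_product, Finset.mem_range, Finset.mem_filter, Finset.mem_univ, true_and]
    exact ⟨hyk' ▸ hi, lead_fixed_12 hv3, hl⟩
  · show lead v • ((phi p)^[i] (rp y')).1 = v
    rw [← hiv]
    show lead v • (lead v)⁻¹ • v = v
    rw [smul_smul, mul_inv_cancel₀ hl, one_smul]

end Pool.Agent.Helper52.DEG
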