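import Pool.Agent.Helper87.LD.Dens

/-!
# DEG: good reductions at all points of bounded degree of the plane. Definitions

`Ω` is a finite field of characteristic `p`.  `Pt Ω`: points of the plane over `Ω`, as vectors whose first
nonzero entry is one.  `phi p`: Frobenius.  `Cl p Ω`: closed points, i.e. the orbits of `phi p`; `rp y`: a
point of the orbit `y`; `dg y`: the degree of `y` (the length of the orbit).
-/

set_option autoImplicit false

namespace Pool.Agent.Helper52.DEG

open MvPolynomial Pool.Agent.Helper87.LD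

noncomputable section

section lead

variable {K : Type} [Field K]

open Classical in
/-- the first nonzero entry -/
def lead (a : Fin 3 → K) : K :=
  if a 0 ≠ 0 then a 0 else if a 1 ≠ 0 then a 1 else a 2

theorem lead_smul (t : K) (a : Fin 3 → K) : lead (t • a) = t * lead a := by
  by_cases ht : t = 0
  · subst ht; simp [lead]
  · unfold lead
    by_cases h0 : a 0 = 0 <;> by_cases h1 : a 1 = 0 <;> simp [ht, h0, h1]

theorem lead_pow (a : Fin 3 → K) {q : ℕ} (hq : q ≠ 0) : lead (fun i => a i ^ q) = lead a ^ q := by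
  unfold lead
  by_cases h0 : a 0 = 0 <;> by_cases h1 : a 1 = 0 <;> simp [hq, h0, h1]

theorem lead_eq_zero {a : Fin 3 → K} : lead a = 0 ↔ a = 0 := by
  constructor
  · intro h
    unfold lead at h
    split_ifs at h with h0 h1
    · exact absurd h h0
    · exact absurd h h1
    · funext i
      fin_cases i
      · exact not_not.1 h0
      · exact not_not.1 h1
      · exact h
  · rintro rfl
    simp [lead]

/-- the vector divided by its first nonzero entry -/
def nrm (a : Fin 3 → K) : Fin 3 → K := (lead a)⁻¹ • a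

theorem lead_nrm {a : Fin 3 → K} (ha : a ≠ 0) : lead (nrm a) = 1 := by
  rw [nrm, lead_smul, inv_mul_cancel₀ fun h => ha (lead_eq_zero.1 h)]

/-- the points of the projective plane over `K`: the vectors with first nonzero entry one -/
def Pt (K : Type) [Field K] : Type := {a : Fin 3 → K // lead a = 1}

theorem Pt.ne_zero (a : Pt K) : a.1 ≠ 0 := fun h => by
  have h1 := a.2
  rw [lead_eq_zero.2 h] at h1
  exact zero_ne_one h1

instance [Finite K] : Finite (Pt K) := by unfold Pt; infer_instance

instance [Fintype K] : Fintype (Pt K) := Fintype.ofFinite _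

/-- the point with the homogeneous coordinates `a` -/
def pt (a : Fin 3 → K) (ha : a ≠ 0) : Pt K := ⟨nrm a, lead_nrm ha⟩

/-- Frobenius on the points -/
def phi (p : ℕ) [Fact p.Prime] (a : Pt K) : Pt K :=
  ⟨fun i => a.1 i ^ p, by rw [lead_pow _ (Fact.out : p.Prime).ne_zero, a.2, one_pow]⟩

/-- two points are conjugate -/
def cl (p : ℕ) [Fact p.Prime] (K : Type) [Field K] : Setoid (Pt K) where
  r a b := ∃ k l : ℕ, (phi p)^[k] a = (phi p)^[l] b
  iseqv :=
    { refl := fun _ => ⟨0, 0, rfl⟩
      symm := fun ⟨k, l, h⟩ => ⟨l, k, h.symm⟩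
      trans := fun {a b c} ⟨k, l, h⟩ ⟨k', l', h'⟩ => ⟨k' + k, l + l', by
        rw [Function.iterate_add_apply, h, ← Function.iterate_add_apply, add_comm k' l,
          Function.iterate_add_apply, h', ← Function.iterate_add_apply]⟩ }

/-- the closed points -/
def Cl (p : ℕ) [Fact p.Prime] (K : Type) [Field K] : Type := Quotient (cl p K)

instance (p : ℕ) [Fact p.Prime] [Finite K] : Finite (Cl p K) := by unfold Cl; infer_instance

instance (p : ℕ) [Fact p.Prime] [Fintype K] : Fintype (Cl p K) := Fintype.ofFinite _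

/-- the closed point of a point -/
def mk (p : ℕ) [Fact p.Prime] (a : Pt K) : Cl p K := Quotient.mk (cl p K) a

/-- a point of the closed point `y` -/
def rp {p : ℕ} [Fact p.Prime] (y : Cl p K) : Pt K := Quotient.out y

theorem mk_rp {p : ℕ} [Fact p.Prime] (y : Cl p K) : mk p (rp y) = y := Quotient.out_eq y

theorem mk_eq {p : ℕ} [Fact p.Prime] {a b : Pt K} :
    mk p a = mk p b ↔ ∃ k l : ℕ, (phi p)^[k] a = (phi p)^[l] b := Quotient.eq (r := cl p K)

/-- the degree of a point -/
def dgp (p : ℕ) [Fact p.Prime] (a : Pt K) : ℕ := Function.minimalPeriod (phi p) a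

/-- the degree of a closed point -/
def dg {p : ℕ} [Fact p.Prime] (y : Cl p K) : ℕ := dgp p (rp y)

end lead

section abstract

/-- the elements of `Z` on a cycle of `τ` which stays in `Z` -/
def cyc {Y : Type} (Z : Finset Y) (τ : Y → Option Y) : Set Y :=
  {y | ∃ j : ℕ, 1 ≤ j ∧ ∃ u : ℕ → Y, u 0 = y ∧ u j = y ∧ ∀ i < j, u i ∈ Z ∧ τ (u i) = some (u (i + 1))}

end abstract

section data

variable {p : ℕ} [Fact p.Prime] {K : Type} [Field K] [Fintype K]

open Classical in
/-- the vectors over the residue field of `y` -/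
def V (y : Cl p K) : Finset (Fin 3 → K) :=
  Finset.univ.filter fun v => ∀ i, v i ^ (p ^ dg y) = v i

open Classical in
/-- the closed point of a vector -/
def tgt (p : ℕ) [Fact p.Prime] (v : Fin 3 → K) : Option (Cl p K) :=
  if h : v ≠ 0 then some (mk p (pt v h)) else none

open Classical in
/-- the closed points of degree `k` -/
def Z (p : ℕ) [Fact p.Prime] (K : Type) [Field K] [Fintype K] (k : ℕ) : Finset (Cl p K) :=
  Finset.univ.filter fun y => dg y = k

open Classical in
/-- the matrices over the residue field of `y` with `W (rp y) = d v` -/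
def Wm (d : ℕ) (y : Cl p K) (v : Fin 3 → K) : Finset (Matrix (Fin 3) (Fin 3) K) :=
  Finset.univ.filter fun W => (∀ i j, W i j ^ (p ^ dg y) = W i j) ∧
    W.mulVec (rp y).1 = (d : K) • v

open Classical in
/-- the possible 1-jets at `y` -/
def Dt (d : ℕ) (y : Cl p K) : Finset ((Fin 3 → K) × Matrix (Fin 3) (Fin 3) K) :=
  Finset.univ.filter fun δ => δ.1 ∈ V y ∧ δ.2 ∈ Wm d y δ.1

open Classical in
/-- good families of 1-jets: all values are nonzero and the closed points on cycles are unramified -/
def T (p : ℕ) [Fact p.Prime] (K : Type) [Field K] [Fintype K] (d : ℕ) :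
    Finset (Cl p K → (Fin 3 → K) × Matrix (Fin 3) (Fin 3) K) :=
  (Fintype.piFinset (Dt d)).filter fun δ => (∀ y, (δ y).1 ≠ 0) ∧
    ∀ k : ℕ, ∀ y ∈ cyc (Z p K k) (fun y => tgt p (δ y).1), Etale (rp y).1 (δ y).1 (δ y).2

/-- the 1-jets of the forms with coefficients `c` -/
def jt {d : ℕ} [Algebra (ZMod p) K] (c : Idx 3 d → ZMod p) (y : Cl p K) :
    (Fin 3 → K) × Matrix (Fin 3) (Fin 3) K :=
  (ev (fun i => map (algebraMap (ZMod p) K) (form c i)) (rp y).1,
    jac (fun i => map (algebraMap (ZMod p) K) (form c i)) (rp y).1)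

end data

end

end Pool.Agent.Helper52.DEG
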