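import Pool.Agent.Helper52.DEG.Defs
import Pool.Agent.Helper87.LD.DegDefs

/-!
# DEG-EMB: good over the field with `p ^ D!` elements implies good over all fields with at most `p ^ D` elements

Let `k, φ` be as in `GoodD`.  `k` has characteristic `p` and `p ^ j` elements with `j ≤ D`, so `j ∣ D!` and
there is an embedding `ψ : k →+* K` (`FiniteField.nonempty_algHom_iff`-like, or `GaloisField` and splitting
fields; `ψ ∘ φ = algebraMap` since both are ring homomorphisms from `ZMod p`).  For `x : Fin 3 → k`, `x ≠ 0`:
`ψ ∘ ev (map φ F) x = ev (map F) (ψ ∘ x)`, `jac` likewise, so `ev ≠ 0`; `PPer` goes from `k` to `K`; and `Etale`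
goes down from `K` to `k`: if `W y = t v` over `k` then `ψ y = t' ψ x` with `t' ∈ K`, and `x ≠ 0` has a nonzero
coordinate, so `t' = ψ (y i / x i)`.  (`D = 0`: there is no such field `k`, as `Nat.card k ≥ 2`.)
-/

set_option autoImplicit false

namespace Pool.Agent.Helper52.DEG

open MvPolynomial Pool.Agent.Helper87.LD

/-- evaluation commutes with an embedding -/
private theorem eval_map_58 {k K : Type} [Field k] [Field K] (ψ : k →+* K)
    (x : Fin 3 → k) (P : MvPolynomial (Fin 3) k) :
    eval (fun i => ψ (x i)) (map ψ P) = ψ (eval x P) := by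
  rw [eval_map]
  induction P using MvPolynomial.induction_on with
  | C a => simp
  | add p q hp hq => simp [hp, hq]
  | mul_X p i hp => simp [hp]

/-- the descent along an embedding of fields -/
private theorem good_of_map_58 {k K : Type} [Field k] [Field K] (ψ : k →+* K)
    {G : Fin 3 → MvPolynomial (Fin 3) k} (h : Good (fun i => map ψ (G i))) : Good G := by
  have hinj : Function.Injective ψ := ψ.injective
  have hev : ∀ x : Fin 3 → k, ev (fun i => map ψ (G i)) (fun i => ψ (x i)) =
      fun i => ψ (ev G x i) := by
    intro x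
    funext i
    simp only [ev]
    exact eval_map_58 ψ x (G i)
  have hit : ∀ (m : ℕ) (x : Fin 3 → k), (ev (fun i => map ψ (G i)))^[m] (fun i => ψ (x i)) =
      fun i => ψ ((ev G)^[m] x i) := by
    intro m
    induction m with
    | zero => intro x; rfl
    | succ m ih =>
      intro x
      rw [Function.iterate_succ_apply, Function.iterate_succ_apply, hev x]
      exact ih (ev G x)
  have hjac : ∀ x : Fin 3 → k, ∀ i j, jac (fun i => map ψ (G i)) (fun i => ψ (x i)) i j =
      ψ (jac G x i j) := by
    intro x i j
    simp only [jac, Matrix.of_apply]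
    rw [pderiv_map]
    exact eval_map_58 ψ x (pderiv j (G i))
  intro x hx
  have hx' : (fun i => ψ (x i)) ≠ 0 := by
    intro h0
    apply hx
    funext i
    apply hinj
    have := congrFun h0 i
    simpa using this
  obtain ⟨h1, h2⟩ := h (fun i => ψ (x i)) hx'
  refine ⟨?_, ?_⟩
  · intro h0
    apply h1
    rw [hev x, h0]
    funext i
    simp
  · rintro ⟨m, hm, t, ht, hmt⟩ y ⟨s, hs⟩
    have hP : PPer (fun i => map ψ (G i)) (fun i => ψ (x i)) := by
      refine ⟨m, hm, ψ t, ?_, ?_⟩
      · intro h0
        exact ht (hinj (by rw [h0, map_zero]))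
      · rw [hit m x, hmt]
        funext i
        simp
    have hE := h2 hP (fun i => ψ (y i)) ⟨ψ s, by
      rw [hev x]
      funext i
      have := congrFun hs i
      simp only [Matrix.mulVec, dotProduct, Pi.smul_apply, smul_eq_mul] at this ⊢
      rw [← map_mul, ← this, map_sum]
      refine Finset.sum_congr rfl fun j _ => ?_
      rw [hjac x i j, map_mul]⟩
    obtain ⟨t', ht'⟩ := hE
    obtain ⟨i, hi⟩ : ∃ i, x i ≠ 0 := by
      by_contra hcon
      push Not at hcon
      exact hx (funext hcon)
    have hyi : ∀ j, ψ (y j) = t' * ψ (x j) := by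
      intro j
      have := congrFun ht' j
      simpa using this
    have hψxi : ψ (x i) ≠ 0 := by
      intro h0
      exact hi (hinj (by rw [h0, map_zero]))
    have ht'' : t' = ψ (y i / x i) := by
      rw [map_div₀, eq_div_iff hψxi, hyi i]
    refine ⟨y i / x i, ?_⟩
    funext j
    apply hinj
    rw [hyi j, ht'', Pi.smul_apply, smul_eq_mul, map_mul]

variable {p : ℕ} [Fact p.Prime] {K : Type} [Field K] [CharP K p] [Fintype K] [Algebra (ZMod p) K]

theorem goodD_of_good {D : ℕ} (hK : Fintype.card K = p ^ D.factorial)
    (F : Fin 3 → MvPolynomial (Fin 3) (ZMod p))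
    (h : Good (fun i => map (algebraMap (ZMod p) K) (F i))) : GoodD D F := by
  intro k _ _ φ hk
  let _ : Algebra (ZMod p) k := φ.toAlgebra
  let _ : Fintype k := Fintype.ofFinite k
  have hp1 : 1 < p := (Fact.out : p.Prime).one_lt
  have hcard : p ^ Module.finrank (ZMod p) k = Nat.card k := by
    have := FiniteField.pow_finrank_eq_natCard p k
    exact this
  have hcardK : p ^ Module.finrank (ZMod p) K = p ^ D.factorial := by
    have := FiniteField.pow_finrank_eq_card p K
    rw [this, hK]
  have hfK : Module.finrank (ZMod p) K = D.factorial :=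
    Nat.pow_right_injective hp1 hcardK
  have hle : Module.finrank (ZMod p) k ≤ D := by
    rw [← hcard] at hk
    exact (Nat.pow_le_pow_iff_right hp1).1 hk
  have hpos : 0 < Module.finrank (ZMod p) k := Module.finrank_pos
  have hdvd : Module.finrank (ZMod p) k ∣ Module.finrank (ZMod p) K := by
    rw [hfK]
    exact Nat.dvd_factorial hpos hle
  obtain ⟨ψ⟩ := FiniteField.nonempty_algHom_of_finrank_dvd hdvd
  apply good_of_map_58 (ψ : k →+* K)
  have hcomp : ((ψ : k →+* K)).comp φ = algebraMap (ZMod p) K := RingHom.ext_zmod _ _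
  have : (fun i => map (ψ : k →+* K) (map φ (F i))) =
      fun i => map (algebraMap (ZMod p) K) (F i) := by
    funext i
    rw [map_map, hcomp]
  rw [this]
  exact h

end Pool.Agent.Helper52.DEG
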