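import Pool.Agent.Helper52.DEG.Wcard

/-!
# DEG-GOODW: for good values many matrices are good

Let `C = ⋃_k cyc (Z p K k) …` (the `y` on cycles; `cyc (Z p K k) τ ⊆ Z p K k`, so these sets are disjoint and only
the `k = dg y`, `k ∣ m`, `1 ≤ k ≤ m` matter, `dg_dvd`, `dg_pos`).  The filtered set is the `piFinset` of
`Wm d y (v y)` for `y ∉ C` and of `(Wm d y (v y)).filter Etale` for `y ∈ C`.  By `card_Wm`, `card_Wm_etale` the
quotient of the cardinalities is at most `∏_(y ∈ C) (q_y - 1) / (q_y - 2)`, `q_y = p ^ dg y ≥ 5`, and the part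
with `dg y = k` is at most `((q - 1) / (q - 2)) ^ (12 m q) ≤ ((q - 1) / (q - 2)) ^ (15 m (q - 1)) ≤ 8 ^ (15 m)`
(`12 q ≤ 15 (q - 1)`; `(1 - 1 / N) ^ N ≥ 1 / 8` for `N = q - 1 ≥ 2`: Bernoulli `(1 - 1 / N) ^ j ≥ 1 - j / N ≥ 1 / 2`
for `j = N / 2`, twice, and one more factor `≥ 1 / 2`).  At most `m` values of `k`: `8 ^ (15 m ^ 2)`.
-/

set_option autoImplicit false

namespace Pool.Agent.Helper52.DEG

open Pool.Agent.Helper87.LD

/-- `(1 + 1 / (N - 1)) ^ N ≤ 8` -/
private theorem powA34 {N : ℕ} (hN : 2 ≤ N) : N ^ N ≤ 8 * (N - 1) ^ N := by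
  obtain ⟨M, rfl⟩ : ∃ M, N = M + 1 := ⟨N - 1, by omega⟩
  have hM : 1 ≤ M := by omega
  rw [Nat.add_sub_cancel]
  have hM1 : (1 : ℝ) ≤ M := by exact_mod_cast hM
  have hM0 : (0 : ℝ) < M := by linarith
  have h1 : ((M : ℝ) + 1) ^ (M + 1) ≤ 8 * (M : ℝ) ^ (M + 1) := by
    have h2 : (M : ℝ) + 1 = M * (1 / M + 1) := by
      field_simp
      ring
    have h3 : (1 / (M : ℝ) + 1) ≤ Real.exp (1 / M) := Real.add_one_le_exp _
    have h4 : (1 / (M : ℝ) + 1) ^ (M + 1) ≤ 8 := by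
      calc (1 / (M : ℝ) + 1) ^ (M + 1) ≤ (Real.exp (1 / M)) ^ (M + 1) := pow_le_pow_left₀ (by positivity) h3 _
        _ = Real.exp (((M + 1 : ℕ) : ℝ) * (1 / M)) := by rw [← Real.exp_nat_mul]
        _ ≤ Real.exp 2 := Real.exp_le_exp.2 (by
              push_cast
              rw [add_mul, mul_one_div_cancel hM0.ne', one_mul]
              have h5 : 1 / (M : ℝ) ≤ 1 := by rw [div_le_one hM0]; exact hM1
              linarith)
        _ ≤ 8 := by
              have h5 := Real.exp_one_lt_d9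
              have h6 : Real.exp 2 = Real.exp 1 * Real.exp 1 := by rw [← Real.exp_add]; norm_num
              have h7 := Real.exp_pos 1
              rw [h6]
              nlinarith
    rw [h2, mul_pow, mul_comm 8]
    exact mul_le_mul_of_nonneg_left h4 (by positivity)
  exact_mod_cast h1

private theorem powB34 {N M c : ℕ} (hN : 2 ≤ N) (hc : c ≤ N * M) : N ^ c ≤ 8 ^ M * (N - 1) ^ c := by
  obtain ⟨r, hr⟩ := Nat.exists_eq_add_of_le hc
  have h1 : (N ^ N) ^ M ≤ (8 * (N - 1) ^ N) ^ M := Nat.pow_le_pow_left (powA34 hN) M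
  rw [← pow_mul, mul_pow, ← pow_mul, hr, pow_add, pow_add] at h1
  have h2 : (N - 1) ^ r ≤ N ^ r := Nat.pow_le_pow_left (by omega) r
  have h3 : N ^ c * N ^ r ≤ 8 ^ M * (N - 1) ^ c * N ^ r := h1.trans (by
    rw [← mul_assoc]
    exact Nat.mul_le_mul_left _ h2)
  exact Nat.le_of_mul_le_mul_right h3 (pow_pos (by omega) r)

variable {p : ℕ} [Fact p.Prime] {K : Type} [Field K] [CharP K p] [Fintype K] {m : ℕ}
  (hK : Fintype.card K = p ^ m)
include hK

open Classical in
theorem card_good_W (hm : 1 ≤ m) (hp : 5 ≤ p) (d : ℕ) {v : Cl p K → Fin 3 → K}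
    (hv : v ∈ Fintype.piFinset (V (p := p) (K := K))) (h0 : ∀ y, v y ≠ 0)
    (hc : ∀ k, k ∣ m → (cyc (Z p K k) fun y => tgt p (v y)).ncard ≤ 12 * m * p ^ k) :
    ∏ y, (Wm d y (v y)).card ≤ 8 ^ (15 * m ^ 2) *
      ((Fintype.piFinset fun y => Wm d y (v y)).filter fun W => ∀ k : ℕ,
        ∀ y ∈ cyc (Z p K k) (fun y => tgt p (v y)), Etale (rp y).1 (v y) (W y)).card := by
  have hcy : ∀ k, ∀ y ∈ cyc (Z p K k) (fun y => tgt p (v y)), dg y = k := by
    rintro k y ⟨j, hj, u, hu0, -, h2⟩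
    have h3 := (h2 0 (by omega)).1
    rw [hu0] at h3
    exact (Finset.mem_filter.1 h3).2
  obtain ⟨C, hC⟩ : ∃ C : Finset (Cl p K), C = Finset.univ.filter fun y => y ∈ cyc (Z p K (dg y)) (fun y => tgt p (v y)) :=
    ⟨_, rfl⟩
  have hmem : ∀ y, y ∈ C ↔ y ∈ cyc (Z p K (dg y)) (fun y => tgt p (v y)) := by
    intro y
    rw [hC, Finset.mem_filter]
    exact and_iff_right (Finset.mem_univ _)
  have hVy : ∀ y, v y ∈ V y := fun y => Fintype.mem_piFinset.1 hv y
  obtain ⟨N, hN⟩ : ∃ N : Cl p K → ℕ, N = fun y => (Wm d y (v y)).card := ⟨_, rfl⟩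
  obtain ⟨E, hE⟩ : ∃ E : Cl p K → ℕ, E = fun y => ((Wm d y (v y)).filter fun W => Etale (rp y).1 (v y) W).card := ⟨_, rfl⟩
  -- the filtered set
  have hset : ((Fintype.piFinset fun y => Wm d y (v y)).filter fun W => ∀ k : ℕ,
      ∀ y ∈ cyc (Z p K k) (fun y => tgt p (v y)), Etale (rp y).1 (v y) (W y)) =
      Fintype.piFinset fun y => if y ∈ C then (Wm d y (v y)).filter (fun W => Etale (rp y).1 (v y) W) else Wm d y (v y) := by
    ext W
    rw [Finset.mem_filter, Fintype.mem_piFinset, Fintype.mem_piFinset]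
    constructor
    · rintro ⟨h1, h2⟩ y
      split_ifs with h3
      · exact Finset.mem_filter.2 ⟨h1 y, h2 _ y ((hmem y).1 h3)⟩
      · exact h1 y
    · intro h1
      refine ⟨fun y => ?_, fun k y hy => ?_⟩
      · have h2 := h1 y
        split_ifs at h2 with h3
        · exact (Finset.mem_filter.1 h2).1
        · exact h2
      · have h3 : y ∈ C := (hmem y).2 (by rw [hcy k y hy]; exact hy)
        have h2 := h1 y
        rw [if_pos h3] at h2
        exact (Finset.mem_filter.1 h2).2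
  rw [hset, Fintype.card_piFinset]
  have hsplit : ∏ y, (if y ∈ C then (Wm d y (v y)).filter (fun W => Etale (rp y).1 (v y) W) else Wm d y (v y)).card =
      (∏ y ∈ C, E y) * ∏ y ∈ Cᶜ, N y := by
    rw [← Finset.prod_mul_prod_compl C]
    congr 1
    · refine Finset.prod_congr rfl fun y hy => ?_
      rw [if_pos hy, hE]
    · refine Finset.prod_congr rfl fun y hy => ?_
      rw [if_neg (Finset.mem_compl.1 hy), hN]
  have hsplit2 : ∏ y, (Wm d y (v y)).card = (∏ y ∈ C, N y) * ∏ y ∈ Cᶜ, N y := by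
    rw [Finset.prod_mul_prod_compl, hN]
  rw [hsplit, hsplit2, ← mul_assoc]
  refine Nat.mul_le_mul_right _ ?_
  -- one degree
  have hfib : ∀ k ∈ m.divisors, ∏ y ∈ C with dg y = k, N y ≤ 8 ^ (15 * m) * ∏ y ∈ C with dg y = k, E y := by
    intro k hk
    have hkm : k ∣ m := Nat.dvd_of_mem_divisors hk
    have hk1 : 1 ≤ k := Nat.pos_of_mem_divisors hk
    obtain ⟨q, hq⟩ : ∃ q, q = p ^ k := ⟨_, rfl⟩
    have hq5 : 5 ≤ q := by
      rw [hq]
      exact hp.trans (Nat.le_self_pow (by omega) p)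
    obtain ⟨F, hF⟩ : ∃ F : Finset (Cl p K), F = C.filter fun y => dg y = k := ⟨_, rfl⟩
    rw [← hF]
    have hcard : F.card ≤ 12 * m * q := by
      rw [hq]
      refine le_trans (le_of_eq ?_) (hc k hkm)
      rw [← Set.ncard_coe_finset]
      congr 1
      ext y
      rw [Finset.mem_coe, hF, Finset.mem_filter]
      constructor
      · rintro ⟨h1, h2⟩
        have h3 := (hmem y).1 h1
        rwa [h2] at h3
      · intro h1
        have h2 := hcy k y h1
        exact ⟨(hmem y).2 (by rw [h2]; exact h1), h2⟩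
    have h1 : ∀ y ∈ F, N y * (q - 2) ≤ (q - 1) * E y := by
      intro y hy
      have hdg : dg y = k := by
        rw [hF] at hy
        exact (Finset.mem_filter.1 hy).2
      have h2 := card_Wm_etale hK hm d y (hVy y) (h0 y)
      rw [← card_Wm hK hm d y (hVy y), hdg, ← hq] at h2
      rw [hN, hE, mul_comm]
      exact h2
    have h2 : (∏ y ∈ F, N y) * (q - 2) ^ F.card ≤ (q - 1) ^ F.card * ∏ y ∈ F, E y := by
      calc (∏ y ∈ F, N y) * (q - 2) ^ F.card = ∏ y ∈ F, (N y * (q - 2)) := by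
            rw [Finset.prod_mul_distrib, Finset.prod_const]
        _ ≤ ∏ y ∈ F, ((q - 1) * E y) := Finset.prod_le_prod (fun _ _ => Nat.zero_le _) h1
        _ = _ := by rw [Finset.prod_mul_distrib, Finset.prod_const]
    have h12 : 12 * m * q ≤ (q - 1) * (15 * m) := by
      have h3 : 12 * q ≤ 15 * (q - 1) := by omega
      calc 12 * m * q = m * (12 * q) := by ring
        _ ≤ m * (15 * (q - 1)) := Nat.mul_le_mul_left _ h3
        _ = _ := by ring
    have h3 : (q - 1) ^ F.card ≤ 8 ^ (15 * m) * (q - 1 - 1) ^ F.card := powB34 (by omega) (hcard.trans h12)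
    rw [show q - 1 - 1 = q - 2 by omega] at h3
    refine Nat.le_of_mul_le_mul_right ?_ (pow_pos (by omega : 0 < q - 2) F.card)
    calc (∏ y ∈ F, N y) * (q - 2) ^ F.card ≤ (q - 1) ^ F.card * ∏ y ∈ F, E y := h2
      _ ≤ (8 ^ (15 * m) * (q - 2) ^ F.card) * ∏ y ∈ F, E y := Nat.mul_le_mul_right _ h3
      _ = _ := by ring
  have hdiv : ∀ y ∈ C, dg y ∈ m.divisors := fun y _ => Nat.mem_divisors.2 ⟨dg_dvd hK y, by omega⟩
  rw [← Finset.prod_fiberwise_of_maps_to hdiv N, ← Finset.prod_fiberwise_of_maps_to hdiv E]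
  refine (Finset.prod_le_prod (fun _ _ => Nat.zero_le _) hfib).trans ?_
  rw [Finset.prod_mul_distrib, Finset.prod_const]
  refine Nat.mul_le_mul_right _ ?_
  rw [← pow_mul]
  refine Nat.pow_le_pow_right (by norm_num) ?_
  have h4 := Nat.card_divisors_le_self m
  nlinarith

end Pool.Agent.Helper52.DEG
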