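import Pool.Agent.Helper52.DEG.JetE

/-!
# DEG-SURJ: all families of 1-jets at the closed points occur

`jt_mem`: the coordinates of `rp y` are fixed by `z ↦ z ^ (p ^ dg y)` (`rp_pow`), the coefficients are in
`ZMod p`, so the values and the entries of the Jacobian matrix are fixed too (`ev`, `jac` are evaluations of
polynomials over `ZMod p`; `z ↦ z ^ (p ^ k)` is a ring homomorphism `iterateFrobenius` which fixes the image of
`ZMod p`); `W (rp y) = d v` is Euler's relation (`IsHomogeneous.sum_X_mul_pderiv`, see `euler15` in LD/Jet).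

`jt_surj`: for `x : Pt K` let `y = mk p x` and `x = (phi p)^[i] (rp y)`, `i < dg y` (`exists_iter`).  For each
`l : Fin 3` put `v_l x = ((δ y).1 l) ^ (p ^ i)`, `w_l x j = ((δ y).2 l j) ^ (p ^ i)`.  Then `v_l (phi p x) =
(v_l x) ^ p`: `phi p x = (phi p)^[i+1] (rp y)`, and if `i + 1 = dg y` the new `i` is zero and
`((δ y).1 l) ^ (p ^ dg y) = (δ y).1 l`; the same for `w`.  Euler: apply the homomorphism `z ↦ z ^ (p ^ i)` to
`∑_j W l j * (rp y) j = d * v l`.  Apply `exists_form_equiv` for each `l` and `form_surj` (LD/Dens).  At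
`x = rp y` one has `i = 0` (or directly: any `i < dg y` with `(phi p)^[i] (rp y) = rp y` is zero).
-/

set_option autoImplicit false

namespace Pool.Agent.Helper52.DEG

open MvPolynomial Pool.Agent.Helper87.LD

variable {p : ℕ} [Fact p.Prime] {K : Type} [Field K] [CharP K p] [Fintype K] {m : ℕ}
  [Algebra (ZMod p) K]

omit [Fintype K] in
private theorem eval_pow80 (G : MvPolynomial (Fin 3) (ZMod p)) (x : Fin 3 → K) (k : ℕ) :
    (eval x (map (algebraMap (ZMod p) K) G)) ^ (p ^ k) =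
      eval (fun i => x i ^ (p ^ k)) (map (algebraMap (ZMod p) K) G) := by
  have h1 : ∀ z : K, z ^ (p ^ k) = iterateFrobenius K p k z := fun z =>
    (iterateFrobenius_def p k z).symm
  rw [h1, eval_map, eval_map, eval₂_comp_left]
  have h2 : (iterateFrobenius K p k).comp (algebraMap (ZMod p) K) = algebraMap (ZMod p) K :=
    Subsingleton.elim _ _
  rw [h2]
  congr 1

omit [CharP K p] [Fintype K] [Algebra (ZMod p) K] in
private theorem pow_mod80 {z : K} {P : ℕ} (hz : z ^ (p ^ P) = z) (n : ℕ) :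
    z ^ (p ^ n) = z ^ (p ^ (n % P)) := by
  have h1 : ∀ k : ℕ, z ^ (p ^ (P * k)) = z := by
    intro k
    induction k with
    | zero => simp
    | succ k ih => rw [Nat.mul_succ, pow_add, pow_mul, ih, hz]
  conv_lhs => rw [← Nat.div_add_mod n P, pow_add, pow_mul, h1]

omit [CharP K p] [Fintype K] [Algebra (ZMod p) K] in
private theorem key80 {y : Cl p K} (hy : 1 ≤ dg y) {z : K} (hz : z ^ (p ^ dg y) = z) {i j : ℕ}
    (h : (phi p)^[i] (rp y) = (phi p)^[j] (rp y)) : z ^ (p ^ i) = z ^ (p ^ j) := by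
  rw [pow_mod80 hz i, pow_mod80 hz j]
  have h1 : (phi p)^[i % dg y] (rp y) = (phi p)^[j % dg y] (rp y) := by
    have e1 : ∀ n : ℕ, (phi p)^[n % dg y] (rp y) = (phi p)^[n] (rp y) := fun n =>
      Function.iterate_mod_minimalPeriod_eq
    rw [e1, e1, h]
  have h2 : i % dg y = j % dg y := (Function.iterate_eq_iterate_iff_of_lt_minimalPeriod
    (f := phi p) (x := rp y) (Nat.mod_lt i hy) (Nat.mod_lt j hy)).1 h1
  rw [h2]

theorem jt_mem {d : ℕ} (c : Idx 3 d → ZMod p) (y : Cl p K) : jt c y ∈ Dt d y := by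
  classical
  have hr : (fun i => (rp y).1 i ^ (p ^ dg y)) = (rp y).1 := funext fun i => rp_pow y i
  refine Finset.mem_filter.2 ⟨Finset.mem_univ _, Finset.mem_filter.2 ⟨Finset.mem_univ _, fun i => ?_⟩,
    Finset.mem_filter.2 ⟨Finset.mem_univ _, fun i j => ?_, ?_⟩⟩
  · show (eval (rp y).1 (map (algebraMap (ZMod p) K) (form c i))) ^ (p ^ dg y) = _
    rw [eval_pow80, hr]
    rfl
  · show (eval (rp y).1 (pderiv j (map (algebraMap (ZMod p) K) (form c i)))) ^ (p ^ dg y) =
      eval (rp y).1 (pderiv j (map (algebraMap (ZMod p) K) (form c i)))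
    rw [pderiv_map, eval_pow80, hr]
  · funext i
    show ∑ j, eval (rp y).1 (pderiv j (map (algebraMap (ZMod p) K) (form c i))) * (rp y).1 j =
      (d : K) * eval (rp y).1 (map (algebraMap (ZMod p) K) (form c i))
    have h := congrArg (eval (rp y).1)
      ((form_isHomogeneous c i).map (algebraMap (ZMod p) K)).sum_X_mul_pderiv
    rw [map_sum, map_nsmul, nsmul_eq_mul] at h
    rw [← h]
    refine Finset.sum_congr rfl fun j _ => ?_
    rw [map_mul, eval_X, mul_comm]

theorem jt_surj (hK : Fintype.card K = p ^ m) (hm : 1 ≤ m) {d : ℕ} (hd : 2 * Nat.card (Pt K) ≤ d)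
    {δ : Cl p K → (Fin 3 → K) × Matrix (Fin 3) (Fin 3) K} (hδ : ∀ y, δ y ∈ Dt d y) :
    ∃ c : Idx 3 d → ZMod p, jt c = δ := by
  classical
  have hdg : ∀ y : Cl p K, 1 ≤ dg y := fun y => dg_pos hK hm y
  have hV : ∀ (y : Cl p K) (l : Fin 3), (δ y).1 l ^ (p ^ dg y) = (δ y).1 l := fun y =>
    (Finset.mem_filter.1 (Finset.mem_filter.1 (hδ y)).2.1).2
  have hW : ∀ y : Cl p K, (∀ i j, (δ y).2 i j ^ (p ^ dg y) = (δ y).2 i j) ∧
      (δ y).2.mulVec (rp y).1 = (d : K) • (δ y).1 := fun y =>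
    (Finset.mem_filter.1 (Finset.mem_filter.1 (hδ y)).2.2).2
  have hex : ∀ x : Pt K, ∃ i < dg (mk p x), x = (phi p)^[i] (rp (mk p x)) := fun x =>
    exists_iter hK hm rfl
  choose ix _ hix using hex
  have hmk : ∀ x : Pt K, mk p (phi p x) = mk p x := fun x => mk_eq.2 ⟨0, 1, rfl⟩
  have hphi : ∀ x : Pt K, (phi p)^[ix (phi p x)] (rp (mk p x)) = (phi p)^[ix x + 1] (rp (mk p x)) := by
    intro x
    have h1 := hix (phi p x)
    rw [hmk] at h1
    rw [← h1, Function.iterate_succ_apply', ← hix x]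
  have hG : ∀ l : Fin 3, ∃ G : MvPolynomial (Fin 3) (ZMod p), G.IsHomogeneous d ∧ ∀ x : Pt K,
      eval x.1 (map (algebraMap (ZMod p) K) G) = (δ (mk p x)).1 l ^ (p ^ ix x) ∧
        ∀ j, eval x.1 (pderiv j (map (algebraMap (ZMod p) K) G)) =
          (δ (mk p x)).2 l j ^ (p ^ ix x) := by
    intro l
    refine exists_form_equiv hK hm d hd (fun x => (δ (mk p x)).1 l ^ (p ^ ix x))
      (fun x j => (δ (mk p x)).2 l j ^ (p ^ ix x)) ?_ ?_ ?_
    · intro x
      have h1 : ∀ z : K, z ^ (p ^ ix x) = iterateFrobenius K p (ix x) z := fun z =>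
        (iterateFrobenius_def p (ix x) z).symm
      have h2 : ∀ j, x.1 j = iterateFrobenius K p (ix x) ((rp (mk p x)).1 j) := by
        intro j
        rw [← h1, ← phi_iter, ← hix x]
      have h3 : ∑ j, (δ (mk p x)).2 l j * (rp (mk p x)).1 j = (d : K) * (δ (mk p x)).1 l :=
        congrFun (hW (mk p x)).2 l
      have h4 := congrArg (iterateFrobenius K p (ix x)) h3
      rw [map_sum, map_mul, map_natCast] at h4
      show ∑ j, (δ (mk p x)).2 l j ^ (p ^ ix x) * x.1 j = (d : K) * (δ (mk p x)).1 l ^ (p ^ ix x)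
      rw [h1 ((δ (mk p x)).1 l), ← h4]
      refine Finset.sum_congr rfl fun j _ => ?_
      rw [h1, h2 j, map_mul]
    · intro x
      show (δ (mk p (phi p x))).1 l ^ (p ^ ix (phi p x)) = ((δ (mk p x)).1 l ^ (p ^ ix x)) ^ p
      rw [hmk, key80 (hdg _) (hV (mk p x) l) (hphi x), pow_succ, pow_mul]
    · intro x j
      show (δ (mk p (phi p x))).2 l j ^ (p ^ ix (phi p x)) = ((δ (mk p x)).2 l j ^ (p ^ ix x)) ^ p
      rw [hmk, key80 (hdg _) ((hW (mk p x)).1 l j) (hphi x), pow_succ, pow_mul]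
  choose G hG1 hG2 using hG
  obtain ⟨c, hc⟩ := form_surj G hG1
  refine ⟨c, ?_⟩
  funext y
  have h0 : (phi p)^[ix (rp y)] (rp y) = (phi p)^[0] (rp y) := by
    have h1 := hix (rp y)
    rw [mk_rp] at h1
    exact h1.symm
  refine Prod.ext ?_ ?_
  · funext l
    show eval (rp y).1 (map (algebraMap (ZMod p) K) (form c l)) = (δ y).1 l
    rw [hc, (hG2 l (rp y)).1, mk_rp, key80 (hdg y) (hV y l) h0, pow_zero, pow_one]
  · ext l j
    show eval (rp y).1 (pderiv j (map (algebraMap (ZMod p) K) (form c l))) = (δ y).2 l j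
    rw [hc, (hG2 l (rp y)).2 j, mk_rp, key80 (hdg y) ((hW y).1 l j) h0, pow_zero, pow_one]

end Pool.Agent.Helper52.DEG
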