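import Pool.Agent.Helper52.DEG.Inv

/-!
# DEG-TRANS: good jets give good reduction over `K`

Let `F = fun i => map (algebraMap (ZMod p) K) (form c i)`, `δ = jt c ∈ T`.  `F` has coefficients in the prime
field: use the lemmas of Inv.lean (`ev_frob`, `ev_smul`, `etale_frob`, `etale_smul`, `pt_smul`, `phi_pt`).  (1) Every `a ≠ 0` is `lead a • (phi p)^[i] (rp y)`, `y = mk p (pt a)` (`exists_iter`), so
`ev F a ≠ 0` since `(δ y).1 ≠ 0`, and `tgt p (δ y).1 = some (mk p (pt (ev F a)))` (proportional vectors have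
the same `pt`, conjugate points the same `mk`).  (2) Let `PPer F a`: `(ev F)^[N] a = t • a`, `N ≥ 1`.  Put
`a_i = (ev F)^[i] a ≠ 0`, `u i = mk p (pt a_i)`: `u N = u 0` and `tgt p (δ (u i)).1 = some (u (i + 1))`.
Degrees: if `pt a_i` is fixed by `phi^k` then `pt a_(i+1)` is (`pt (ev F b)` depends only on `pt b` and
commutes with `phi`), so `dg (u (i+1)) ∣ dg (u i)` (`dgp_eq`, `Function.IsPeriodicPt.minimalPeriod_dvd`), and as
`u N = u 0` all `dg (u i)`, `i ≤ N`, are equal to `k = dg (u 0)`.  So `u 0 ∈ cyc (Z p K k) …` and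
`Etale (rp y) (δ y).1 (δ y).2` for `y = u 0` by `T`.  (3) `a = lead a • (phi p)^[i] (rp y)`: `etale_frob`,
`etale_smul`.
-/

set_option autoImplicit false

namespace Pool.Agent.Helper52.DEG

open MvPolynomial Pool.Agent.Helper87.LD

variable {p : ℕ} [Fact p.Prime] {K : Type} [Field K] [CharP K p] [Fintype K] {m : ℕ}
  [Algebra (ZMod p) K]

private theorem hom67 {d : ℕ} (c : Idx 3 d → ZMod p) (i : Fin 3) :
    (map (algebraMap (ZMod p) K) (form c i)).IsHomogeneous d := by
  rw [map_form]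
  exact form_isHomogeneous _ i

/-- every vector is a multiple of a conjugate of the representative -/
private theorem rep67 (hK : Fintype.card K = p ^ m) (hm : 1 ≤ m) {a : Fin 3 → K} (ha : a ≠ 0) :
    ∃ i : ℕ, a = lead a • (fun j => (rp (mk p (pt a ha))).1 j ^ (p ^ i)) := by
  obtain ⟨i, -, hi⟩ := exists_iter hK hm (a := pt a ha) (y := mk p (pt a ha)) rfl
  refine ⟨i, ?_⟩
  have h1 := eq_lead_smul ha
  have h2 : (pt a ha).1 = fun j => (rp (mk p (pt a ha))).1 j ^ (p ^ i) := by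
    funext j
    rw [← phi_iter, ← hi]
  rw [← h2]
  exact h1

private theorem pow_ne67 {w : Fin 3 → K} (hw : w ≠ 0) (k : ℕ) : (fun j => w j ^ (p ^ k)) ≠ 0 := by
  intro h
  refine hw (funext fun j => ?_)
  have h1 := congrFun h j
  exact pow_eq_zero_iff (pow_ne_zero _ (Fact.out : p.Prime).ne_zero) |>.1 h1

private theorem val67 (hK : Fintype.card K = p ^ m) (hm : 1 ≤ m) {d : ℕ} (c : Idx 3 d → ZMod p)
    (hv : ∀ y : Cl p K, ev (fun i => map (algebraMap (ZMod p) K) (form c i)) (rp y).1 ≠ 0)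
    {a : Fin 3 → K} (ha : a ≠ 0) :
    ∃ h : ev (fun i => map (algebraMap (ZMod p) K) (form c i)) a ≠ 0,
      mk p (pt _ h) = mk p (pt _ (hv (mk p (pt a ha)))) := by
  obtain ⟨i, hi⟩ := rep67 hK hm ha
  set y := mk p (pt a ha) with hy
  have hl : lead a ≠ 0 := fun h => ha (lead_eq_zero.1 h)
  have h1 : ev (fun i => map (algebraMap (ZMod p) K) (form c i)) a =
      lead a ^ d • fun j => ev (fun i => map (algebraMap (ZMod p) K) (form c i)) (rp y).1 j ^ (p ^ i) := by
    conv_lhs => rw [hi]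
    rw [ev_smul (fun i => hom67 c i), ev_frob]
  have h2 := pow_ne67 (p := p) (hv y) i
  have h3 : lead a ^ d • (fun j => ev (fun i => map (algebraMap (ZMod p) K) (form c i)) (rp y).1 j ^ (p ^ i)) ≠ 0 :=
    smul_ne_zero (pow_ne_zero _ hl) h2
  have h4 : ev (fun i => map (algebraMap (ZMod p) K) (form c i)) a ≠ 0 := by
    rw [h1]
    exact h3
  refine ⟨h4, ?_⟩
  rw [mk_eq]
  refine ⟨0, i, ?_⟩
  rw [phi_pt _ _ _ h2, Function.iterate_zero, id]
  have h5 : ∀ (b : Fin 3 → K) (hb : b ≠ 0), b = lead a ^ d • (fun j =>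
      ev (fun i => map (algebraMap (ZMod p) K) (form c i)) (rp y).1 j ^ (p ^ i)) → pt b hb = pt _ h2 := by
    rintro b hb rfl
    exact pt_smul (pow_ne_zero _ hl) h2 hb
  exact h5 _ h4 h1

private theorem dvd67 (hK : Fintype.card K = p ^ m) (hm : 1 ≤ m) {d : ℕ} (c : Idx 3 d → ZMod p)
    {a : Fin 3 → K} (ha : a ≠ 0) (h : ev (fun i => map (algebraMap (ZMod p) K) (form c i)) a ≠ 0) :
    dg (mk p (pt _ h)) ∣ dg (mk p (pt a ha)) := by
  rw [← dgp_eq hK hm, ← dgp_eq hK hm]
  set k := dgp p (pt a ha) with hk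
  have hl : lead a ≠ 0 := fun h => ha (lead_eq_zero.1 h)
  have h1 : (phi p)^[k] (pt a ha) = pt a ha := Function.isPeriodicPt_minimalPeriod (phi p) (pt a ha)
  have h2 : (fun j => (pt a ha).1 j ^ (p ^ k)) = (pt a ha).1 := by
    funext j
    rw [← phi_iter, h1]
  have h3 : ev (fun i => map (algebraMap (ZMod p) K) (form c i)) a =
      lead a ^ d • ev (fun i => map (algebraMap (ZMod p) K) (form c i)) (pt a ha).1 := by
    conv_lhs => rw [eq_lead_smul ha]
    rw [ev_smul (fun i => hom67 c i)]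
  have h4 : ev (fun i => map (algebraMap (ZMod p) K) (form c i)) (pt a ha).1 ≠ 0 := by
    intro h0
    rw [h0, smul_zero] at h3
    exact h h3
  have h5 : pt _ h = pt _ h4 := by
    have h6 : ∀ (b : Fin 3 → K) (hb : b ≠ 0), b = lead a ^ d •
        ev (fun i => map (algebraMap (ZMod p) K) (form c i)) (pt a ha).1 → pt b hb = pt _ h4 := by
      rintro b hb rfl
      exact pt_smul (pow_ne_zero _ hl) h4 hb
    exact h6 _ h h3
  have h6 : (fun j => ev (fun i => map (algebraMap (ZMod p) K) (form c i)) (pt a ha).1 j ^ (p ^ k)) =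
      ev (fun i => map (algebraMap (ZMod p) K) (form c i)) (pt a ha).1 := by
    rw [← ev_frob, h2]
  refine Function.IsPeriodicPt.minimalPeriod_dvd ?_
  rw [h5]
  change (phi p)^[k] (pt _ h4) = pt _ h4
  rw [phi_pt _ _ _ (pow_ne67 (p := p) h4 k)]
  have h7 : ∀ (b : Fin 3 → K) (hb : b ≠ 0),
      b = ev (fun i => map (algebraMap (ZMod p) K) (form c i)) (pt a ha).1 → pt b hb = pt _ h4 := by
    rintro b hb rfl
    rfl
  exact h7 _ _ h6

theorem good_of_T (hK : Fintype.card K = p ^ m) (hm : 1 ≤ m) {d : ℕ} (c : Idx 3 d → ZMod p)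
    (h : jt c ∈ T p K d) : Good (fun i => map (algebraMap (ZMod p) K) (form c i)) := by
  classical
  obtain ⟨-, hv, hE⟩ := Finset.mem_filter.1 h
  replace hv : ∀ y : Cl p K, ev (fun i => map (algebraMap (ZMod p) K) (form c i)) (rp y).1 ≠ 0 := hv
  set F : Fin 3 → MvPolynomial (Fin 3) K := fun i => map (algebraMap (ZMod p) K) (form c i) with hF
  have key : ∀ (a : Fin 3 → K) (ha : a ≠ 0), ∃ h : ev F a ≠ 0,
      mk p (pt _ h) = mk p (pt _ (hv (mk p (pt a ha)))) := fun a ha => val67 hK hm c hv ha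
  intro a ha
  refine ⟨(key a ha).1, fun hper => ?_⟩
  obtain ⟨N, hN, t, ht, hNt⟩ := hper
  have hne : ∀ i : ℕ, (ev F)^[i] a ≠ 0 := by
    intro i
    induction i with
    | zero => exact ha
    | succ i ih =>
      rw [Function.iterate_succ_apply']
      exact (key _ ih).1
  set u : ℕ → Cl p K := fun i => mk p (pt _ (hne i)) with hu
  have hu0 : u 0 = mk p (pt a ha) := rfl
  have huN : u N = u 0 := by
    have h1 : ∀ (b : Fin 3 → K) (hb : b ≠ 0), b = t • a → pt b hb = pt a ha := by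
      rintro b hb rfl
      exact pt_smul ht ha hb
    exact congrArg (mk p) (h1 _ (hne N) hNt)
  have hsucc : ∀ (i : ℕ) (b : Fin 3 → K) (hb : b ≠ 0), b = ev F ((ev F)^[i] a) → ∃ h : ev F ((ev F)^[i] a) ≠ 0,
      mk p (pt b hb) = mk p (pt _ h) := by
    rintro i b hb rfl
    exact ⟨hb, rfl⟩
  have htgt : ∀ i, tgt p (jt c (u i)).1 = some (u (i + 1)) := by
    intro i
    obtain ⟨h1, h2⟩ := key _ (hne i)
    obtain ⟨h3, h4⟩ := hsucc i _ (hne (i + 1)) (Function.iterate_succ_apply' _ _ _)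
    have h5 : u (i + 1) = mk p (pt _ (hv (u i))) := h4.trans h2
    rw [h5]
    exact dif_pos (hv (u i))
  have hdvd : ∀ i, dg (u (i + 1)) ∣ dg (u i) := by
    intro i
    obtain ⟨h3, h4⟩ := hsucc i _ (hne (i + 1)) (Function.iterate_succ_apply' _ _ _)
    have h5 : u (i + 1) = mk p (pt _ h3) := h4
    rw [h5]
    exact dvd67 hK hm c (hne i) h3
  have hdvd' : ∀ i j, i ≤ j → dg (u j) ∣ dg (u i) := by
    intro i j hij
    induction j, hij using Nat.le_induction with
    | base => exact dvd_rfl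
    | succ j _ ih => exact (hdvd j).trans ih
  have hmem : u 0 ∈ cyc (Z p K (dg (u 0))) (fun y => tgt p (jt c y).1) := by
    refine ⟨N, hN, u, rfl, huN, fun i hi => ⟨?_, htgt i⟩⟩
    rw [Z, Finset.mem_filter]
    refine ⟨Finset.mem_univ _, Nat.dvd_antisymm (hdvd' 0 i (Nat.zero_le _)) ?_⟩
    have h1 := hdvd' i N hi.le
    rwa [huN] at h1
  have h1 : Etale (rp (u 0)).1 (ev F (rp (u 0)).1) (jac F (rp (u 0)).1) := hE _ _ hmem
  rw [hu0] at h1
  obtain ⟨i, hi⟩ := rep67 hK hm ha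
  have hl : lead a ≠ 0 := fun h => ha (lead_eq_zero.1 h)
  have h2 := etale_smul (fun i => hom67 c i) hl (etale_frob (form c) i h1)
  rw [← hi] at h2
  exact h2

end Pool.Agent.Helper52.DEG
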