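import Pool.Agent.Helper52.DEG.BadV
import Pool.Agent.Helper52.DEG.GoodW
import Pool.Agent.Helper52.DEG.Trans
import Pool.Agent.Helper52.DEG.Surj
import Pool.Agent.Helper52.DEG.Emb

/-!
# DEG: the density of good reductions at all points of degree at most `D`
-/

set_option autoImplicit false

namespace Pool.Agent.Helper52.DEG

open MvPolynomial Pool.Agent.Helper87.LD

open Classical in
theorem card_T {m : ℕ} (hm : 1 ≤ m) (p : ℕ) [Fact p.Prime] (hp : 5 ≤ p) (K : Type) [Field K]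
    [Fintype K] [CharP K p] (hK : Fintype.card K = p ^ m) (d : ℕ) :
    (Fintype.piFinset (Dt (p := p) (K := K) d)).card ≤ 4 * 8 ^ (15 * m ^ 2) * (T p K d).card := by
  set Vp := Fintype.piFinset (V (p := p) (K := K)) with hVp
  set B0 := Vp.filter fun v => ∃ y, v y = 0 with hB0
  set B1 := Vp.filter fun v => ∃ k, k ∣ m ∧
      12 * m * p ^ k < (cyc (Z p K k) fun y => tgt p (v y)).ncard with hB1
  have h0 := card_bad_zero (p := p) hK hm hp
  have h1 := card_bad_cyc (p := p) hK hm hp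
  rw [← Fintype.card_piFinset, ← hVp] at h0 h1
  change 2 * B0.card ≤ _ at h0
  change 4 * B1.card ≤ _ at h1
  set Gd := (Vp \ B0) \ B1 with hGd
  have hG : Vp.card ≤ 4 * Gd.card := by
    have e1 : (Vp \ B0).card - B1.card ≤ Gd.card := Finset.le_card_sdiff B1 (Vp \ B0)
    have e2 : Vp.card - B0.card ≤ (Vp \ B0).card := Finset.le_card_sdiff B0 Vp
    omega
  have hmem : ∀ v ∈ Gd, v ∈ Vp ∧ (∀ y, v y ≠ 0) ∧
      ∀ k, k ∣ m → (cyc (Z p K k) fun y => tgt p (v y)).ncard ≤ 12 * m * p ^ k := by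
    intro v hv
    obtain ⟨hv1, hv2⟩ := Finset.mem_sdiff.1 hv
    obtain ⟨hv3, hv4⟩ := Finset.mem_sdiff.1 hv1
    refine ⟨hv3, fun y hy => hv4 (Finset.mem_filter.2 ⟨hv3, y, hy⟩), fun k hk => ?_⟩
    by_contra hlt
    exact hv2 (Finset.mem_filter.2 ⟨hv3, k, hk, not_le.1 hlt⟩)
  set P6 := ∏ y : Cl p K, (p ^ dg y) ^ 6 with hP6
  have hDt : (Fintype.piFinset (Dt (p := p) (K := K) d)).card = Vp.card * P6 := by
    rw [hVp, Fintype.card_piFinset, Fintype.card_piFinset, hP6, ← Finset.prod_mul_distrib]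
    refine Finset.prod_congr rfl fun y _ => ?_
    have e1 : Dt (p := p) (K := K) d y = ((V y).sigma (fun v => Wm d y v)).map
        ⟨fun s => (s.1, s.2), fun s t h => by
          obtain ⟨a, b⟩ := s
          obtain ⟨a', b'⟩ := t
          simpa using h⟩ := by
      ext ⟨a, b⟩
      rw [Dt, Finset.mem_filter, Finset.mem_map]
      constructor
      · rintro ⟨-, ha, hb⟩
        exact ⟨⟨a, b⟩, Finset.mem_sigma.2 ⟨ha, hb⟩, rfl⟩
      · rintro ⟨⟨a', b'⟩, h, h2⟩
        obtain ⟨ha, hb⟩ := Finset.mem_sigma.1 h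
        obtain ⟨rfl, rfl⟩ := Prod.mk.injEq .. ▸ h2
        exact ⟨Finset.mem_univ _, ha, hb⟩
    rw [e1, Finset.card_map, Finset.card_sigma,
      Finset.sum_congr rfl fun v hv => card_Wm hK hm d y hv, Finset.sum_const, smul_eq_mul]
  set GW := fun v : Cl p K → Fin 3 → K => (Fintype.piFinset fun y => Wm d y (v y)).filter fun W =>
    ∀ k : ℕ, ∀ y ∈ cyc (Z p K k) (fun y => tgt p (v y)), Etale (rp y).1 (v y) (W y) with hGW
  have hgood : ∀ v ∈ Gd, P6 ≤ 8 ^ (15 * m ^ 2) * (GW v).card := by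
    intro v hv
    obtain ⟨g1, g2, g3⟩ := hmem v hv
    refine le_trans (le_of_eq ?_) (card_good_W hK hm hp d g1 g2 g3)
    exact Finset.prod_congr rfl fun y _ => (card_Wm hK hm d y (Fintype.mem_piFinset.1 g1 y)).symm
  have hT : ∑ v ∈ Gd, (GW v).card ≤ (T p K d).card := by
    rw [← Finset.card_sigma]
    refine Finset.card_le_card_of_injOn (fun s y => (s.1 y, s.2 y)) ?_ ?_
    · rintro ⟨v, W⟩ hs
      obtain ⟨hv, hW⟩ := Finset.mem_sigma.1 (Finset.mem_coe.1 hs)
      obtain ⟨g1, g2, -⟩ := hmem v hv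
      obtain ⟨hW1, hW2⟩ := Finset.mem_filter.1 hW
      refine Finset.mem_coe.2 (Finset.mem_filter.2 ⟨Fintype.mem_piFinset.2 fun y => ?_, g2, hW2⟩)
      exact Finset.mem_filter.2 ⟨Finset.mem_univ _, Fintype.mem_piFinset.1 g1 y,
        Fintype.mem_piFinset.1 hW1 y⟩
    · rintro ⟨v, W⟩ - ⟨v', W'⟩ - h
      have e1 : v = v' := funext fun y => (Prod.ext_iff.1 (congrFun h y)).1
      have e2 : W = W' := funext fun y => (Prod.ext_iff.1 (congrFun h y)).2
      subst e1 e2
      rfl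
  rw [hDt]
  calc Vp.card * P6 ≤ 4 * Gd.card * P6 := Nat.mul_le_mul_right _ hG
    _ = 4 * ∑ _v ∈ Gd, P6 := by rw [Finset.sum_const, smul_eq_mul, mul_assoc]
    _ ≤ 4 * ∑ v ∈ Gd, 8 ^ (15 * m ^ 2) * (GW v).card :=
        Nat.mul_le_mul_left _ (Finset.sum_le_sum hgood)
    _ = 4 * 8 ^ (15 * m ^ 2) * ∑ v ∈ Gd, (GW v).card := by rw [← Finset.mul_sum, mul_assoc]
    _ ≤ 4 * 8 ^ (15 * m ^ 2) * (T p K d).card := Nat.mul_le_mul_left _ hT

private theorem form_add52 {n d : ℕ} {R : Type*} [CommRing R] (c e : Idx n d → R) (i : Fin n) :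
    form (c + e) i = form c i + form e i := by
  simp only [form, Pi.add_apply, map_add, Finset.sum_add_distrib]

/-- the 1-jets as an additive map -/
private noncomputable def jtHom {p : ℕ} [Fact p.Prime] {K : Type} [Field K] [Fintype K]
    [Algebra (ZMod p) K] (d : ℕ) :
    (Idx 3 d → ZMod p) →+ (Cl p K → (Fin 3 → K) × Matrix (Fin 3) (Fin 3) K) :=
  AddMonoidHom.mk' (fun c => jt c) (by
    intro c e
    funext y
    refine Prod.ext ?_ ?_
    · funext i
      simp [jt, ev, form_add52]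
    · ext i j
      simp [jt, jac, form_add52])

theorem good_densityD (D : ℕ) : ∃ κ : ℕ, 0 < κ ∧ ∀ (p : ℕ) [Fact p.Prime], 5 ≤ p →
    ∃ d₀ : ℕ, ∀ d, d₀ ≤ d → p ^ Fintype.card (Idx 3 d) ≤
      κ * Nat.card {c : Idx 3 d → ZMod p // GoodD D (form c)} := by
  classical
  set m := D.factorial with hm
  have hm1 : 1 ≤ m := Nat.factorial_pos D
  refine ⟨4 * 8 ^ (15 * m ^ 2), by positivity, fun p _ hp => ?_⟩
  let K := GaloisField p m
  have : Fintype K := Fintype.ofFinite K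
  have hK : Fintype.card K = p ^ m := by
    rw [← Nat.card_eq_fintype_card]
    exact GaloisField.card p m (by omega)
  refine ⟨2 * Nat.card (Pt K), fun d hd => ?_⟩
  have hS : ∀ b ∈ Fintype.piFinset (Dt (p := p) (K := K) d), b ∈ Set.range (jtHom (p := p) (K := K) d) := by
    intro b hb
    obtain ⟨c, hc⟩ := jt_surj (p := p) hK hm1 hd (Fintype.mem_piFinset.1 hb)
    exact ⟨c, hc⟩
  have hSr : ∀ a, jtHom (p := p) (K := K) d a ∈ Fintype.piFinset (Dt (p := p) (K := K) d) := fun a =>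
    Fintype.mem_piFinset.2 fun y => jt_mem a y
  have hfib := fib_card (jtHom (p := p) (K := K) d) (Fintype.piFinset (Dt (p := p) (K := K) d))
    (T p K d) hS hSr (Finset.filter_subset _ _)
  have hT := card_T hm1 p hp K hK d
  have hSpos : 0 < (Fintype.piFinset (Dt (p := p) (K := K) d)).card :=
    Finset.card_pos.2 ⟨_, hSr 0⟩
  have hTpos : 0 < (T p K d).card := by
    rcases Nat.eq_zero_or_pos (T p K d).card with h | h
    · rw [h, mul_zero] at hT
      omega
    · exact h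
  have hcA : Fintype.card (Idx 3 d → ZMod p) = p ^ Fintype.card (Idx 3 d) := by
    rw [Fintype.card_fun, ZMod.card]
  rw [hcA] at hfib
  have h1 : p ^ Fintype.card (Idx 3 d) ≤ 4 * 8 ^ (15 * m ^ 2) *
      (Finset.univ.filter fun a => jtHom (p := p) (K := K) d a ∈ T p K d).card := by
    refine Nat.le_of_mul_le_mul_right ?_ hTpos
    rw [← hfib, mul_assoc, mul_comm _ (T p K d).card, ← mul_assoc, mul_comm _ (Fintype.piFinset _).card]
    exact Nat.mul_le_mul_right _ hT
  refine h1.trans (Nat.mul_le_mul_left _ ?_)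
  rw [Nat.card_eq_fintype_card, Fintype.card_subtype]
  refine Finset.card_le_card fun c hc => ?_
  rw [Finset.mem_filter] at hc ⊢
  exact ⟨Finset.mem_univ _, goodD_of_good hK _ (good_of_T hK hm1 c hc.2)⟩

end Pool.Agent.Helper52.DEG
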