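import Pool.Agent.Helper52.DEG.Cnt

/-!
# DEG-INV: invariance under scaling and Frobenius

`ev_smul`, `jac_smul`, `etale_smul`: copy `ev_smul87`, `jac_smul87` and the end of `good_of_conf` (LD/Dens, private
there).  `ev_frob`, `jac_frob`: the coefficients are in the prime field and `z ↦ z ^ (p ^ k)` is the ring
homomorphism `iterateFrobenius K p k`, which fixes the image of `ZMod p`; `eval₂`/`eval_map`.
`etale_frob`: the Frobenius of the finite field `K` is bijective: write `y = y' ^ (p ^ k)`, `t = t' ^ (p ^ k)`.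
`pt_smul`: `nrm (t • a) = nrm a`.  `pt_frob`: `lead_pow`.
-/

set_option autoImplicit false

namespace Pool.Agent.Helper52.DEG

open MvPolynomial Pool.Agent.Helper87.LD

section scal

variable {K : Type} [Field K] {d : ℕ} {F : Fin 3 → MvPolynomial (Fin 3) K}

theorem ev_smul (hF : ∀ i, (F i).IsHomogeneous d) (t : K) (x : Fin 3 → K) :
    ev F (t • x) = t ^ d • ev F x := by
  funext i
  exact Pool.Agent.Helper26.FD.eval_smul_hom' (hF i) t x

private theorem jac_smul33 (hF : ∀ i, (F i).IsHomogeneous d) (t : K) (x : Fin 3 → K) :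
    jac F (t • x) = t ^ (d - 1) • jac F x := by
  ext i j
  exact Pool.Agent.Helper26.FD.eval_smul_hom' ((hF i).pderiv (i := j)) t x

theorem etale_smul (hF : ∀ i, (F i).IsHomogeneous d) {t : K} (ht : t ≠ 0) {x : Fin 3 → K}
    (h : Etale x (ev F x) (jac F x)) : Etale (t • x) (ev F (t • x)) (jac F (t • x)) := by
  rintro y ⟨s, hs⟩
  rw [ev_smul hF, jac_smul33 hF, Matrix.smul_mulVec, smul_smul] at hs
  have h1 : t ^ (d - 1) ≠ 0 := pow_ne_zero _ ht
  obtain ⟨u, hu⟩ := h y ⟨(t ^ (d - 1))⁻¹ * (s * t ^ d), by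
    rw [← smul_smul, ← hs, smul_smul, inv_mul_cancel₀ h1, one_smul]⟩
  refine ⟨u * t⁻¹, ?_⟩
  rw [hu, smul_smul, mul_assoc, inv_mul_cancel₀ ht, mul_one]

theorem pt_smul {t : K} (ht : t ≠ 0) {a : Fin 3 → K} (ha : a ≠ 0) (hta : t • a ≠ 0) :
    pt (t • a) hta = pt a ha := by
  refine Subtype.ext ?_
  show (lead (t • a))⁻¹ • (t • a) = (lead a)⁻¹ • a
  rw [lead_smul, smul_smul, mul_inv_rev, mul_assoc, inv_mul_cancel₀ ht, mul_one]

/-- a vector is a multiple of its point -/
theorem eq_lead_smul {a : Fin 3 → K} (ha : a ≠ 0) : a = lead a • (pt a ha).1 := by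
  have h1 : lead a ≠ 0 := fun h => ha (lead_eq_zero.1 h)
  show a = lead a • ((lead a)⁻¹ • a)
  rw [smul_smul, mul_inv_cancel₀ h1, one_smul]

end scal

section frob

variable {p : ℕ} [Fact p.Prime] {K : Type} [Field K] [CharP K p]

theorem phi_pt (a : Fin 3 → K) (ha : a ≠ 0) (k : ℕ) (h : (fun i => a i ^ (p ^ k)) ≠ 0) :
    (phi p)^[k] (pt a ha) = pt (fun i => a i ^ (p ^ k)) h := by
  refine Subtype.ext (funext fun i => ?_)
  rw [phi_iter]
  show ((lead a)⁻¹ * a i) ^ (p ^ k) = (lead fun i => a i ^ (p ^ k))⁻¹ * a i ^ (p ^ k)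
  rw [lead_pow _ (pow_ne_zero _ (Fact.out : p.Prime).ne_zero), mul_pow, inv_pow]

variable [Algebra (ZMod p) K] (G : Fin 3 → MvPolynomial (Fin 3) (ZMod p))

omit G in
private theorem eval_frob33 (g : MvPolynomial (Fin 3) (ZMod p)) (a : Fin 3 → K) (k : ℕ) :
    eval (fun i => a i ^ (p ^ k)) (map (algebraMap (ZMod p) K) g) =
      eval a (map (algebraMap (ZMod p) K) g) ^ (p ^ k) := by
  rw [eval_map, eval_map, ← iterateFrobenius_def, eval₂_comp_left]
  congr 1
  exact Subsingleton.elim _ _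

theorem ev_frob (a : Fin 3 → K) (k : ℕ) :
    ev (fun i => map (algebraMap (ZMod p) K) (G i)) (fun i => a i ^ (p ^ k)) =
      fun i => ev (fun i => map (algebraMap (ZMod p) K) (G i)) a i ^ (p ^ k) := by
  funext i
  exact eval_frob33 (G i) a k

theorem jac_frob (a : Fin 3 → K) (k : ℕ) (i j : Fin 3) :
    jac (fun i => map (algebraMap (ZMod p) K) (G i)) (fun i => a i ^ (p ^ k)) i j =
      jac (fun i => map (algebraMap (ZMod p) K) (G i)) a i j ^ (p ^ k) := by
  show eval (fun i => a i ^ (p ^ k)) (pderiv j (map (algebraMap (ZMod p) K) (G i))) =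
    eval a (pderiv j (map (algebraMap (ZMod p) K) (G i))) ^ (p ^ k)
  rw [pderiv_map]
  exact eval_frob33 _ a k

theorem etale_frob [Finite K] {a : Fin 3 → K} (k : ℕ)
    (h : Etale a (ev (fun i => map (algebraMap (ZMod p) K) (G i)) a)
      (jac (fun i => map (algebraMap (ZMod p) K) (G i)) a)) :
    Etale (fun i => a i ^ (p ^ k))
      (ev (fun i => map (algebraMap (ZMod p) K) (G i)) fun i => a i ^ (p ^ k))
      (jac (fun i => map (algebraMap (ZMod p) K) (G i)) fun i => a i ^ (p ^ k)) := by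
  have hinj : Function.Injective (iterateFrobenius K p k) := (iterateFrobenius K p k).injective
  have hsur : Function.Surjective (iterateFrobenius K p k) := Finite.surjective_of_injective hinj
  rintro y ⟨t, ht⟩
  obtain ⟨t', rfl⟩ := hsur t
  have hy : ∀ i, ∃ z, iterateFrobenius K p k z = y i := fun i => hsur (y i)
  choose y' hy' using hy
  obtain ⟨u, hu⟩ := h y' ⟨t', by
    funext i
    refine hinj ?_
    have h1 := congrFun ht i
    rw [ev_frob] at h1
    rw [Matrix.mulVec, dotProduct, map_sum]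
    rw [Matrix.mulVec, dotProduct] at h1
    rw [Pi.smul_apply, smul_eq_mul, map_mul, iterateFrobenius_def p k (ev _ a i)]
    rw [Pi.smul_apply, smul_eq_mul] at h1
    rw [← h1]
    refine Finset.sum_congr rfl fun j _ => ?_
    rw [map_mul, hy', jac_frob, iterateFrobenius_def]⟩
  refine ⟨iterateFrobenius K p k u, funext fun i => ?_⟩
  rw [← hy', hu, Pi.smul_apply, smul_eq_mul, map_mul, Pi.smul_apply, smul_eq_mul, iterateFrobenius_def p k (a i)]

end frob

end Pool.Agent.Helper52.DEG
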