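import Pool.Agent.Helper52.DEG.JetK
import Pool.Agent.Helper52.DEG.Cnt

/-!
# DEG-JETE: equivariant 1-jets are realised over the prime field

Proof of `exists_form_equiv`.  Take `G₁` over `K` from `exists_form_jetK`, and `l ∈ K` with trace one
(`Algebra.trace_surjective` or `FiniteField.trace_to_zmod_nondegenerate`).  Let `G` have the coefficients
`Tr (l * coeff s G₁) ∈ ZMod p`.  In `K`, `Tr z = ∑_(i < m) z ^ (p ^ i)` (`FiniteField.algebraMap_trace_eq_sum_pow`,
`m` is the degree of `K` over `ZMod p` by `hK`).  So `map G = ∑_(i < m) l ^ (p ^ i) G₁^(i)`, `G₁^(i) = map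
(iterateFrobenius K p i) G₁`.  For `x : Pt K` put `x_i = (phi p)^[m - i] x`, so `(phi p)^[i] x_i = x` (`phi_m`),
`eval x G₁^(i) = (eval x_i G₁) ^ (p ^ i) = v x_i ^ (p ^ i) = v x` (iterate `hv`), the same for `pderiv j`
(`pderiv` commutes with `map`), and `∑ l ^ (p ^ i) v x = Tr l * v x = v x`.
-/

set_option autoImplicit false

namespace Pool.Agent.Helper52.DEG

open MvPolynomial Pool.Agent.Helper87.LD

variable {p : ℕ} [Fact p.Prime] {K : Type} [Field K] [CharP K p] [Fintype K] {m : ℕ}
  [Algebra (ZMod p) K] (hK : Fintype.card K = p ^ m)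

omit [CharP K p] [Fintype K] [Algebra (ZMod p) K] in
private theorem iter_v47 (v : Pt K → K) (hv : ∀ x, v (phi p x) = v x ^ p) (i : ℕ) (x : Pt K) :
    v ((phi p)^[i] x) = v x ^ (p ^ i) := by
  induction i with
  | zero => simp
  | succ i ih => rw [Function.iterate_succ_apply', hv, ih, pow_succ, pow_mul]

omit [Fintype K] [Algebra (ZMod p) K] in
/-- evaluation of the conjugate of a polynomial -/
private theorem eval_conj47 (P : MvPolynomial (Fin 3) K) (i : ℕ) (x y : Pt K)
    (hxy : (phi p)^[i] y = x) :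
    eval x.1 (map (iterateFrobenius K p i) P) = eval y.1 P ^ (p ^ i) := by
  rw [eval_map, ← iterateFrobenius_def, eval, coe_eval₂Hom, eval₂_comp_left, RingHom.comp_id]
  congr 1
  funext j
  rw [← hxy, phi_iter, Function.comp_apply, iterateFrobenius_def]

include hK

theorem exists_form_equiv (hm : 1 ≤ m) (d : ℕ) (hd : 2 * Nat.card (Pt K) ≤ d)
    (v : Pt K → K) (w : Pt K → Fin 3 → K) (h : ∀ x, ∑ j, w x j * x.1 j = d * v x)
    (hv : ∀ x, v (phi p x) = v x ^ p) (hw : ∀ x j, w (phi p x) j = w x j ^ p) :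
    ∃ G : MvPolynomial (Fin 3) (ZMod p), G.IsHomogeneous d ∧ ∀ x : Pt K,
      eval x.1 (map (algebraMap (ZMod p) K) G) = v x ∧
        ∀ j, eval x.1 (pderiv j (map (algebraMap (ZMod p) K) G)) = w x j := by
  classical
  obtain ⟨G₁, hG, hval⟩ := exists_form_jetK d hd v w h
  have hfd : FiniteDimensional (ZMod p) K := Module.Finite.of_finite
  obtain ⟨l, hl⟩ := Algebra.trace_surjective (ZMod p) K 1
  have hfr : Module.finrank (ZMod p) K = m := by
    have h1 := Module.card_eq_pow_finrank (K := ZMod p) (V := K)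
    rw [hK, ZMod.card] at h1
    exact (Nat.pow_right_injective (Fact.out : p.Prime).two_le h1).symm
  have htr : ∀ z : K, algebraMap (ZMod p) K (Algebra.trace (ZMod p) K z) =
      ∑ i ∈ Finset.range m, z ^ (p ^ i) := by
    intro z
    have h1 := FiniteField.algebraMap_trace_eq_sum_pow (ZMod p) K z
    rwa [hfr, Nat.card_zmod] at h1
  have hl1 : ∑ i ∈ Finset.range m, l ^ (p ^ i) = 1 := by
    rw [← htr, hl, map_one]
  have hmap : map (algebraMap (ZMod p) K)
      (∑ s ∈ G₁.support, monomial s (Algebra.trace (ZMod p) K (l * coeff s G₁))) =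
      ∑ i ∈ Finset.range m, C (l ^ (p ^ i)) * map (iterateFrobenius K p i) G₁ := by
    ext s
    rw [coeff_map, coeff_sum, coeff_sum]
    simp only [coeff_monomial, coeff_C_mul, coeff_map, iterateFrobenius_def]
    rw [Finset.sum_ite_eq' G₁.support s]
    split_ifs with hs
    · rw [htr]
      refine Finset.sum_congr rfl fun i _ => ?_
      rw [mul_pow]
    · rw [notMem_support_iff.1 hs, map_zero]
      symm
      refine Finset.sum_eq_zero fun i _ => ?_
      rw [zero_pow (pow_ne_zero _ (Fact.out : p.Prime).ne_zero), mul_zero]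
  have hx : ∀ (x : Pt K) (i : ℕ), i ∈ Finset.range m → (phi p)^[i] ((phi p)^[m - i] x) = x := by
    intro x i hi
    rw [← Function.iterate_add_apply, Nat.add_sub_cancel' (Finset.mem_range.1 hi).le, phi_m hK]
  refine ⟨∑ s ∈ G₁.support, monomial s (Algebra.trace (ZMod p) K (l * coeff s G₁)), ?_, ?_⟩
  · refine IsHomogeneous.sum _ _ _ fun s hs => ?_
    refine isHomogeneous_monomial _ ?_
    have h1 : Finsupp.weight 1 s = d := hG (mem_support_iff.1 hs)
    rw [Finsupp.degree_eq_weight_one (R := ℕ)]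
    exact h1
  · intro x
    rw [hmap]
    refine ⟨?_, fun j => ?_⟩
    · rw [map_sum]
      have h1 : ∀ i ∈ Finset.range m,
          eval x.1 (C (l ^ (p ^ i)) * map (iterateFrobenius K p i) G₁) = l ^ (p ^ i) * v x := by
        intro i hi
        rw [map_mul, eval_C, eval_conj47 G₁ i x _ (hx x i hi), (hval _).1, ← iter_v47 v hv, hx x i hi]
      rw [Finset.sum_congr rfl h1, ← Finset.sum_mul, hl1, one_mul]
    · rw [map_sum, map_sum]
      have h1 : ∀ i ∈ Finset.range m,
          eval x.1 (pderiv j (C (l ^ (p ^ i)) * map (iterateFrobenius K p i) G₁)) =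
            l ^ (p ^ i) * w x j := by
        intro i hi
        rw [pderiv_C_mul, map_mul, eval_C, pderiv_map, eval_conj47 (pderiv j G₁) i x _ (hx x i hi),
          (hval _).2 j, ← iter_v47 (fun y => w y j) (fun y => hw y j), hx x i hi]
      rw [Finset.sum_congr rfl h1, ← Finset.sum_mul, hl1, one_mul]

end Pool.Agent.Helper52.DEG
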