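import Pool.Agent.Helper52.DEG.Defs

/-!
# DEG-JETK: interpolation of 1-jets at all points of the plane over a finite field

The same proof as in `Pool/Agent/Helper87/LD/Jet.lean`, with the points `Pt K` (vectors with first nonzero entry
one) in place of `ℙ`: two different points of `Pt K` are not proportional, since `lead (t • a) = t * lead a`.
-/

set_option autoImplicit false

namespace Pool.Agent.Helper52.DEG

open MvPolynomial Pool.Agent.Helper87.LD

/-- the linear form with given coefficients -/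
private noncomputable def lin45 {n : ℕ} {F : Type} [Field F] (c : Fin n → F) :
    MvPolynomial (Fin n) F := ∑ j, C (c j) * X j

private theorem lin45_hom {n : ℕ} {F : Type} [Field F] (c : Fin n → F) :
    (lin45 c).IsHomogeneous 1 := by
  refine IsHomogeneous.sum _ _ _ fun j _ => ?_
  exact isHomogeneous_C_mul_X _ _

private theorem eval_lin45 {n : ℕ} {F : Type} [Field F] (c a : Fin n → F) :
    eval a (lin45 c) = ∑ j, c j * a j := by
  unfold lin45
  rw [map_sum]
  refine Finset.sum_congr rfl fun j _ => ?_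
  rw [map_mul, eval_C, eval_X]

private theorem pderiv_lin45 {n : ℕ} {F : Type} [Field F] (c : Fin n → F) (j : Fin n) :
    pderiv j (lin45 c) = C (c j) := by
  unfold lin45
  rw [map_sum, Finset.sum_eq_single j]
  · rw [pderiv_C_mul, pderiv_X_self, mul_one]
  · intro i _ hi
    rw [pderiv_C_mul, pderiv_X_of_ne hi, mul_zero]
  · intro h
    exact absurd (Finset.mem_univ j) h

/-- Euler's relation at a point -/
private theorem euler45 {n : ℕ} {F : Type} [Field F] {P : MvPolynomial (Fin n) F} {d : ℕ}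
    (hP : P.IsHomogeneous d) (a : Fin n → F) :
    ∑ j, eval a (pderiv j P) * a j = d * eval a P := by
  have h := congrArg (eval a) hP.sum_X_mul_pderiv
  rw [map_sum, map_nsmul, nsmul_eq_mul] at h
  rw [← h]
  refine Finset.sum_congr rfl fun j _ => ?_
  rw [map_mul, eval_X, mul_comm]

/-- a jet at one point -/
private theorem jet_one45 {n : ℕ} {F : Type} [Field F] {e : ℕ} (he : 0 < e) (a : Fin n → F)
    (ha : a ≠ 0) (v : F) (u : Fin n → F) (h : ∑ j, u j * a j = e * v) :
    ∃ H : MvPolynomial (Fin n) F, H.IsHomogeneous e ∧ eval a H = v ∧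
      ∀ j, eval a (pderiv j H) = u j := by
  classical
  obtain ⟨k, hk⟩ : ∃ k, a k ≠ 0 := by
    by_contra hcon
    push Not at hcon
    exact ha (funext hcon)
  obtain ⟨c, hc⟩ : ∃ c : Fin n → F, c = Pi.single k (a k)⁻¹ := ⟨_, rfl⟩
  have hca : ∑ j, c j * a j = 1 := by
    rw [Finset.sum_eq_single k]
    · rw [hc, Pi.single_eq_same, inv_mul_cancel₀ hk]
    · intro j _ hj
      rw [hc, Pi.single_eq_of_ne hj, zero_mul]
    · intro h
      exact absurd (Finset.mem_univ k) h
  obtain ⟨r, rfl⟩ : ∃ r, e = r + 1 := ⟨e - 1, by omega⟩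
  obtain ⟨m, hm⟩ : ∃ m : Fin n → F, m = fun j => u j - r * v * c j := ⟨_, rfl⟩
  have hma : ∑ j, m j * a j = v := by
    have h1 : ∑ j, m j * a j = ∑ j, u j * a j - r * v * ∑ j, c j * a j := by
      rw [Finset.mul_sum, ← Finset.sum_sub_distrib, hm]
      refine Finset.sum_congr rfl fun j _ => ?_
      ring
    rw [h1, h, hca]
    push_cast
    ring
  refine ⟨lin45 c ^ r * lin45 m, ?_, ?_, ?_⟩
  · have h1 := ((lin45_hom c).pow r).mul (lin45_hom m)
    rwa [one_mul] at h1
  · rw [map_mul, map_pow, eval_lin45, eval_lin45, hca, hma, one_pow, one_mul]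
  · intro j
    rw [Derivation.leibniz, Derivation.leibniz_pow, pderiv_lin45, pderiv_lin45]
    simp only [smul_eq_mul, nsmul_eq_mul, map_add, map_mul, map_pow, eval_lin45, hca, hma, eval_C,
      one_pow, one_mul, map_natCast]
    rw [hm]
    ring

/-- a form which vanishes twice at all the other points and is one at `x` -/
private theorem sep45 {K : Type} [Field K] [Fintype (Pt K)] [DecidableEq (Pt K)] (x : Pt K) :
    ∃ P : MvPolynomial (Fin 3) K, P.IsHomogeneous (2 * (Fintype.card (Pt K) - 1)) ∧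
      eval x.1 P = 1 ∧ ∀ y : Pt K, y ≠ x → eval y.1 P = 0 ∧ ∀ j, eval y.1 (pderiv j P) = 0 := by
  classical
  have hl : ∀ y : Pt K, y ≠ x → ∃ c : Fin 3 → K, ∑ j, c j * y.1 j = 0 ∧ ∑ j, c j * x.1 j = 1 := by
    intro y hy
    have hnot : x.1 ∉ Submodule.span K {y.1} := by
      intro hmem
      obtain ⟨t, ht⟩ := Submodule.mem_span_singleton.1 hmem
      apply hy
      have h1 : lead (t • y.1) = t * lead y.1 := lead_smul t y.1
      rw [ht, x.2, y.2, mul_one] at h1
      rw [← h1, one_smul] at ht
      exact Subtype.ext ht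
    obtain ⟨f, hf, hf'⟩ := Submodule.exists_dual_map_eq_bot_of_notMem hnot inferInstance
    have hfy : f y.1 = 0 := by
      have h1 : f y.1 ∈ (Submodule.span K {y.1}).map f :=
        ⟨_, Submodule.mem_span_singleton_self _, rfl⟩
      rw [hf'] at h1
      exact h1
    have hfa : ∀ a : Fin 3 → K, ∑ j, f (Pi.single j 1) * a j = f a := by
      intro a
      have h1 : a = ∑ j, a j • (Pi.single j 1 : Fin 3 → K) := by
        rw [← Finset.univ_sum_single a]
        refine Finset.sum_congr rfl fun j _ => ?_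
        rw [Finset.univ_sum_single a, ← Pi.single_smul, smul_eq_mul, mul_one]
      conv_rhs => rw [h1]
      rw [map_sum]
      refine Finset.sum_congr rfl fun j _ => ?_
      rw [map_smul, smul_eq_mul, mul_comm]
    refine ⟨fun j => (f x.1)⁻¹ * f (Pi.single j 1), ?_, ?_⟩
    · simp only [mul_assoc]
      rw [← Finset.mul_sum, hfa, hfy, mul_zero]
    · simp only [mul_assoc]
      rw [← Finset.mul_sum, hfa, inv_mul_cancel₀ hf]
  choose! c hc0 hc1 using hl
  refine ⟨∏ y ∈ Finset.univ.erase x, lin45 (c y) ^ 2, ?_, ?_, ?_⟩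
  · have h1 := IsHomogeneous.prod (Finset.univ.erase x) (fun y => lin45 (c y) ^ 2)
      (fun _ => 1 * 2) (fun y _ => (lin45_hom (c y)).pow 2)
    rwa [Finset.sum_const, Finset.card_erase_of_mem (Finset.mem_univ x), Finset.card_univ,
      smul_eq_mul, one_mul, mul_comm] at h1
  · rw [map_prod]
    refine Finset.prod_eq_one fun y hy => ?_
    rw [map_pow, eval_lin45, hc1 y (Finset.ne_of_mem_erase hy), one_pow]
  · intro y hy
    have h1 : y ∈ Finset.univ.erase x := Finset.mem_erase.2 ⟨hy, Finset.mem_univ y⟩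
    rw [← Finset.mul_prod_erase _ _ h1]
    refine ⟨?_, fun j => ?_⟩
    · rw [map_mul, map_pow, eval_lin45, hc0 y hy]
      ring
    · rw [Derivation.leibniz, Derivation.leibniz_pow]
      simp only [smul_eq_mul, nsmul_eq_mul, map_add, map_mul, map_pow, eval_lin45, hc0 y hy]
      ring

/-- all 1-jets (with Euler's relation) at all points of the plane over a finite field are realised by a form of
degree `d`, if `d` is large -/
theorem exists_form_jetK {K : Type} [Field K] [Finite K] (d : ℕ) (hd : 2 * Nat.card (Pt K) ≤ d)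
    (v : Pt K → K) (w : Pt K → Fin 3 → K) (h : ∀ x, ∑ j, w x j * x.1 j = d * v x) :
    ∃ G : MvPolynomial (Fin 3) K, G.IsHomogeneous d ∧
      ∀ x : Pt K, eval x.1 G = v x ∧ ∀ j, eval x.1 (pderiv j G) = w x j := by
  classical
  have hfin : Finite (Pt K) := inferInstance
  have := Fintype.ofFinite (Pt K)
  rw [Nat.card_eq_fintype_card] at hd
  have key : ∀ x : Pt K, ∃ G : MvPolynomial (Fin 3) K,
      G.IsHomogeneous d ∧ (eval x.1 G = v x ∧ ∀ j, eval x.1 (pderiv j G) = w x j) ∧
      ∀ y : Pt K, y ≠ x → eval y.1 G = 0 ∧ ∀ j, eval y.1 (pderiv j G) = 0 := by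
    intro x
    have hpos : 0 < Fintype.card (Pt K) := Fintype.card_pos_iff.2 ⟨x⟩
    obtain ⟨P, hP, hP1, hP0⟩ := sep45 x
    obtain ⟨e, he, hde⟩ : ∃ e, 0 < e ∧ d = 2 * (Fintype.card (Pt K) - 1) + e :=
      ⟨d - 2 * (Fintype.card (Pt K) - 1), by omega, by omega⟩
    obtain ⟨H, hH, hH1, hH2⟩ := jet_one45 he x.1 x.ne_zero (v x)
      (fun j => w x j - eval x.1 (pderiv j P) * v x) (by
        have h1 := euler45 hP x.1
        rw [hP1, mul_one] at h1
        have h2 : ∑ j, (w x j - eval x.1 (pderiv j P) * v x) * x.1 j =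
            ∑ j, w x j * x.1 j - v x * ∑ j, eval x.1 (pderiv j P) * x.1 j := by
          rw [Finset.mul_sum, ← Finset.sum_sub_distrib]
          refine Finset.sum_congr rfl fun j _ => ?_
          ring
        rw [h2, h, h1, hde]
        push_cast
        ring)
    refine ⟨P * H, ?_, ⟨?_, fun j => ?_⟩, fun y hy => ⟨?_, fun j => ?_⟩⟩
    · rw [hde]
      exact hP.mul hH
    · rw [map_mul, hP1, hH1, one_mul]
    · rw [Derivation.leibniz]
      simp only [smul_eq_mul, map_add, map_mul, hP1, hH1, hH2]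
      ring
    · rw [map_mul, (hP0 y hy).1, zero_mul]
    · rw [Derivation.leibniz]
      simp only [smul_eq_mul, map_add, map_mul, (hP0 y hy).1, (hP0 y hy).2 j]
      ring
  choose G hG1 hG2 hG3 using key
  refine ⟨∑ x, G x, IsHomogeneous.sum _ _ _ fun x _ => hG1 x, fun x => ⟨?_, fun j => ?_⟩⟩
  · rw [map_sum, Finset.sum_eq_single x]
    · exact (hG2 x).1
    · intro y _ hy
      exact (hG3 y x (Ne.symm hy)).1
    · intro h
      exact absurd (Finset.mem_univ x) h
  · rw [map_sum, map_sum, Finset.sum_eq_single x]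
    · exact (hG2 x).2 j
    · intro y _ hy
      exact (hG3 y x (Ne.symm hy)).2 j
    · intro h
      exact absurd (Finset.mem_univ x) h

end Pool.Agent.Helper52.DEG
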