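import Pool.Agent.Helper52.DEG.Defs
import Pool.Agent.Helper87.LD.Mat

/-!
# DEG-MATK: counting the ramified matrices over a finite field

The same proofs as in `Pool/Agent/Helper87/LD/Mat.lean` (there `k = ZMod p`), with `q = Nat.card k`
in place of `p`: copy that file (private lemmas with the suffix `K`).
`etale_ext`: choose a basis `b` of `K` over `k`; if `W y = t v` over `K`, then in coordinates `W y_l = t_l v`
over `k` (`Basis.repr` is linear over `k`, the entries of `W`, `v` are in `k`), so `y_l = s_l x` and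
`y = (∑ b_l s_l) x`.
-/

set_option autoImplicit false

namespace Pool.Agent.Helper52.DEG

open Pool.Agent.Helper87.LD

variable {n : ℕ} {k : Type} [Field k] [Finite k]

/-- the matrices with prescribed values at linearly independent vectors -/
private theorem card_linK34 {ι : Type} [Fintype ι] (v : ι → Fin n → k) (hv : LinearIndependent k v)
    (w : ι → Fin n → k) :
    Nat.card {W : Matrix (Fin n) (Fin n) k // ∀ i, W.mulVec (v i) = w i} * (Nat.card k ^ n) ^ Fintype.card ι =
      Nat.card k ^ (n * n) := by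
  classical
  cases nonempty_fintype k
  let T : Matrix (Fin n) (Fin n) k →+ (ι → Fin n → k) :=
    { toFun := fun W i => W.mulVec (v i)
      map_zero' := by
        funext i
        simp
      map_add' := fun A B => by
        funext i
        simp [Matrix.add_mulVec] }
  have hT : Function.Surjective T := by
    intro w
    let f : Submodule.span k (Set.range v) →ₗ[k] (Fin n → k) :=
      (Module.Basis.span hv).constr k w
    obtain ⟨g, hg⟩ := LinearMap.exists_extend f
    refine ⟨LinearMap.toMatrix' g, ?_⟩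
    funext i
    show (LinearMap.toMatrix' g).mulVec (v i) = w i
    rw [LinearMap.toMatrix'_mulVec]
    have h1 : g (v i) = f ⟨v i, Submodule.subset_span ⟨i, rfl⟩⟩ := by
      rw [← hg]; rfl
    rw [h1]
    have h2 : (⟨v i, Submodule.subset_span ⟨i, rfl⟩⟩ : Submodule.span k (Set.range v)) =
        Module.Basis.span hv i := by
      apply Subtype.ext
      rw [Module.Basis.span_apply]
    rw [h2]
    exact Module.Basis.constr_basis _ _ _ _
  obtain ⟨W0, hW0⟩ := hT w
  have e1 : Nat.card {W : Matrix (Fin n) (Fin n) k // ∀ i, W.mulVec (v i) = w i} = Nat.card T.ker := by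
    refine Nat.card_congr
      { toFun := fun W => ⟨W.1 - W0, ?_⟩
        invFun := fun K => ⟨K.1 + W0, ?_⟩
        left_inv := fun W => Subtype.ext (by simp)
        right_inv := fun K => Subtype.ext (by simp) }
    · rw [AddMonoidHom.mem_ker, map_sub, hW0, sub_eq_zero]
      funext i
      exact W.2 i
    · intro i
      have h1 : T (K.1 + W0) = w := by
        rw [map_add, AddMonoidHom.mem_ker.1 K.2, zero_add, hW0]
      exact congrFun h1 i
  have e2 : Nat.card T.ker * Nat.card (ι → Fin n → k) = Nat.card (Matrix (Fin n) (Fin n) k) := by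
    have h1 := AddSubgroup.card_mul_index T.ker
    rw [← h1]
    congr 1
    rw [AddSubgroup.index_ker, AddMonoidHom.range_eq_top_of_surjective T hT]
    exact (Nat.card_congr AddSubgroup.topEquiv.toEquiv).symm
  rw [e1]
  have e3 : Nat.card (ι → Fin n → k) = (Nat.card k ^ n) ^ Fintype.card ι := by
    rw [Nat.card_eq_fintype_card, Fintype.card_fun, Fintype.card_fun, Nat.card_eq_fintype_card, Fintype.card_fin]
  have e4 : Nat.card (Matrix (Fin n) (Fin n) k) = Nat.card k ^ (n * n) := by
    show Nat.card (Fin n → Fin n → k) = _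
    rw [Nat.card_eq_fintype_card, Fintype.card_fun, Fintype.card_fun, Nat.card_eq_fintype_card, Fintype.card_fin,
      ← pow_mul]
  rw [← e3, e2, e4]

omit [Finite k] in
private theorem n_posK34 {x : Fin n → k} (hx : x ≠ 0) : 1 ≤ n := by
  rcases Nat.eq_zero_or_pos n with rfl | h
  · exact absurd (Subsingleton.elim x 0) hx
  · exact h

theorem card_mulVec_eqK (x a : Fin n → k) (hx : x ≠ 0) :
    Nat.card {W : Matrix (Fin n) (Fin n) k // W.mulVec x = a} = Nat.card k ^ (n * (n - 1)) := by
  have hp : 0 < Nat.card k := Nat.card_pos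
  have h1 := card_linK34 (ι := Unit) (fun _ => x) (by
    rw [linearIndependent_unique_iff]
    exact hx) (fun _ => a)
  have e : Nat.card {W : Matrix (Fin n) (Fin n) k // ∀ _ : Unit, W.mulVec x = a} =
      Nat.card {W : Matrix (Fin n) (Fin n) k // W.mulVec x = a} :=
    Nat.card_congr (Equiv.subtypeEquivRight fun W => ⟨fun h => h (), fun h _ => h⟩)
  rw [e, Fintype.card_unit, pow_one] at h1
  have hn := n_posK34 hx
  have h2 : Nat.card k ^ (n * (n - 1)) * Nat.card k ^ n = Nat.card k ^ (n * n) := by
    rw [← pow_add]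
    congr 1
    obtain ⟨m, rfl⟩ : ∃ m, n = m + 1 := ⟨n - 1, by omega⟩
    simp only [Nat.add_sub_cancel]
    ring
  exact Nat.eq_of_mul_eq_mul_right (pow_pos hp n) (h1.trans h2.symm)

/-- the matrices with `W x = a`, `W y = b` -/
private theorem card_twoK34 (x y a b : Fin n → k) (hx : x ≠ 0) (hy : ∀ t : k, y ≠ t • x) :
    Nat.card {W : Matrix (Fin n) (Fin n) k // W.mulVec x = a ∧ W.mulVec y = b} * (Nat.card k ^ n * Nat.card k ^ n) =
      Nat.card k ^ (n * n) := by
  have h1 := card_linK34 (ι := Fin 2) ![x, y] (by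
    rw [LinearIndependent.pair_iff' hx]
    intro t h
    exact hy t h.symm) ![a, b]
  have e : Nat.card {W : Matrix (Fin n) (Fin n) k // ∀ i : Fin 2, W.mulVec (![x, y] i) = ![a, b] i} =
      Nat.card {W : Matrix (Fin n) (Fin n) k // W.mulVec x = a ∧ W.mulVec y = b} :=
    Nat.card_congr (Equiv.subtypeEquivRight fun W => by
      rw [Fin.forall_fin_two]
      rfl)
  rw [e, Fintype.card_fin, pow_two] at h1
  exact h1

theorem card_etaleK (x v : Fin n → k) (hx : x ≠ 0) (hv : v ≠ 0) (a : k) :
    (Nat.card k - 2) * Nat.card k ^ (n * (n - 1)) ≤ (Nat.card k - 1) *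
      Nat.card {W : Matrix (Fin n) (Fin n) k // W.mulVec x = a • v ∧ Etale x v W} := by
  classical
  cases nonempty_fintype k
  obtain ⟨p, hpe⟩ : ∃ p : ℕ, p = Nat.card k := ⟨_, rfl⟩
  have hpf : Fintype.card k = p := by rw [hpe, Nat.card_eq_fintype_card]
  have hp2 : 2 ≤ p := by
    rw [hpe]
    exact Finite.one_lt_card
  have hp0 : 0 < p := by omega
  have hn := n_posK34 hx
  rw [← hpe]
  set A : Finset (Matrix (Fin n) (Fin n) k) := Finset.univ.filter (fun W => W.mulVec x = a • v) with hA
  have hAc : A.card = p ^ (n * (n - 1)) := by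
    rw [hpe, ← card_mulVec_eqK x (a • v) hx, Nat.card_eq_fintype_card, Fintype.card_subtype]
  set N := A.filter (fun W => ¬ Etale x v W) with hN
  have hEt : Nat.card {W : Matrix (Fin n) (Fin n) k // W.mulVec x = a • v ∧ Etale x v W} + N.card =
      p ^ (n * (n - 1)) := by
    rw [← hAc, Nat.card_eq_fintype_card, Fintype.card_subtype, hN, hA]
    rw [← Finset.card_filter_add_card_filter_not (s := Finset.univ.filter (fun W => W.mulVec x = a • v))
      (fun W => Etale x v W), Finset.filter_filter, Finset.filter_filter]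
  -- the pairs
  set Y : Finset (Fin n → k) := Finset.univ.filter (fun y => ∀ t : k, y ≠ t • x) with hY
  have hYc : Y.card ≤ p ^ n := by
    refine (Finset.card_filter_le _ _).trans (le_of_eq ?_)
    rw [Finset.card_univ, Fintype.card_fun, hpf, Fintype.card_fin]
  let r : Matrix (Fin n) (Fin n) k → (Fin n → k) → Prop := fun W y => ∃ t : k, W.mulVec y = t • v
  have hlow : ∀ W ∈ N, (p - 1) * p ≤ (Y.filter (fun y => r W y)).card := by
    intro W hW
    obtain ⟨hWA, hWe⟩ := Finset.mem_filter.1 hW
    have hWx : W.mulVec x = a • v := (Finset.mem_filter.1 hWA).2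
    unfold Etale at hWe
    push Not at hWe
    obtain ⟨y0, ⟨t0, ht0⟩, hy0⟩ := hWe
    have hcard : ((Finset.univ : Finset (kˣ × k))).card = (p - 1) * p := by
      rw [Finset.card_univ, Fintype.card_prod, Fintype.card_units, hpf]
    rw [← hcard]
    refine Finset.card_le_card_of_injOn (fun q => (q.1 : k) • y0 + q.2 • x) ?_ ?_
    · intro q _
      refine Finset.mem_coe.2 (Finset.mem_filter.2 ⟨Finset.mem_filter.2 ⟨Finset.mem_univ _, fun s hs => ?_⟩, ?_⟩)
      · apply hy0 ((q.1⁻¹ : kˣ) * (s - q.2))
        have hs' : (q.1 : k) • y0 + q.2 • x = s • x := hs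
        have h1 : (q.1 : k) • y0 = (s - q.2) • x := by
          rw [sub_smul, ← hs']
          abel
        calc y0 = ((q.1⁻¹ : kˣ) : k) • ((q.1 : k) • y0) := by
              rw [smul_smul, Units.inv_mul, one_smul]
          _ = _ := by rw [h1, smul_smul]
      · refine ⟨(q.1 : k) * t0 + q.2 * a, ?_⟩
        rw [Matrix.mulVec_add, Matrix.mulVec_smul, Matrix.mulVec_smul, ht0, hWx, smul_smul, smul_smul, add_smul]
    · intro q _ q' _ h
      have h' : (q.1 : k) • y0 + q.2 • x = (q'.1 : k) • y0 + q'.2 • x := h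
      have h1 : ((q.1 : k) - q'.1) • y0 = (q'.2 - q.2) • x := by
        rw [sub_smul, sub_smul, sub_eq_sub_iff_add_eq_add]
        rw [h']
        abel
      have h2 : (q.1 : k) = q'.1 := by
        by_contra hne
        have hne' : (q.1 : k) - q'.1 ≠ 0 := sub_ne_zero.2 hne
        apply hy0 (((q.1 : k) - q'.1)⁻¹ * (q'.2 - q.2))
        calc y0 = ((q.1 : k) - q'.1)⁻¹ • (((q.1 : k) - q'.1) • y0) := by
              rw [smul_smul, inv_mul_cancel₀ hne', one_smul]
          _ = _ := by rw [h1, smul_smul]
      rw [h2, sub_self, zero_smul] at h1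
      have h3 : q'.2 - q.2 = 0 := by
        rcases smul_eq_zero.1 h1.symm with h4 | h4
        · exact h4
        · exact absurd h4 hx
      exact Prod.ext (Units.ext h2) (sub_eq_zero.1 h3).symm
  have hupp : ∀ y ∈ Y, (A.filter (fun W => r W y)).card * (p ^ n * p ^ n) ≤ p * p ^ (n * n) := by
    intro y hy
    have hy' : ∀ t : k, y ≠ t • x := (Finset.mem_filter.1 hy).2
    have h1 : (A.filter (fun W => r W y)).card ≤ ∑ t : k,
        (Finset.univ.filter (fun W : Matrix (Fin n) (Fin n) k => W.mulVec x = a • v ∧ W.mulVec y = t • v)).card := by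
      refine le_trans (Finset.card_le_card ?_) Finset.card_biUnion_le
      intro W hW
      obtain ⟨hWA, t, ht⟩ := Finset.mem_filter.1 hW
      exact Finset.mem_biUnion.2 ⟨t, Finset.mem_univ _, Finset.mem_filter.2
        ⟨Finset.mem_univ _, (Finset.mem_filter.1 hWA).2, ht⟩⟩
    refine (Nat.mul_le_mul_right _ h1).trans (le_of_eq ?_)
    rw [Finset.sum_mul]
    have h2 : ∀ t ∈ (Finset.univ : Finset k), (Finset.univ.filter (fun W : Matrix (Fin n) (Fin n) k =>
        W.mulVec x = a • v ∧ W.mulVec y = t • v)).card * (p ^ n * p ^ n) = p ^ (n * n) := by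
      intro t _
      rw [hpe, ← card_twoK34 x y (a • v) (t • v) hx hy', Nat.card_eq_fintype_card (α := {W : Matrix (Fin n) (Fin n) k // _}),
        Fintype.card_subtype]
    rw [Finset.sum_congr rfl h2, Finset.sum_const, Finset.card_univ, hpf, smul_eq_mul]
  have hdc : N.card * ((p - 1) * p) * (p ^ n * p ^ n) ≤ p ^ n * (p * p ^ (n * n)) := by
    have h1 : N.card * ((p - 1) * p) ≤ ∑ W ∈ N, (Y.filter (fun y => r W y)).card := by
      rw [← smul_eq_mul, ← Finset.sum_const]
      exact Finset.sum_le_sum hlow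
    have h2 : ∑ W ∈ N, (Y.filter (fun y => r W y)).card ≤ ∑ y ∈ Y, (A.filter (fun W => r W y)).card := by
      refine le_trans (Finset.sum_le_sum_of_subset (Finset.filter_subset _ _)) (le_of_eq ?_)
      exact Finset.sum_card_bipartiteAbove_eq_sum_card_bipartiteBelow r
    calc N.card * ((p - 1) * p) * (p ^ n * p ^ n) ≤ (∑ y ∈ Y, (A.filter (fun W => r W y)).card) * (p ^ n * p ^ n) :=
          Nat.mul_le_mul_right _ (h1.trans h2)
      _ = ∑ y ∈ Y, (A.filter (fun W => r W y)).card * (p ^ n * p ^ n) := by rw [Finset.sum_mul]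
      _ ≤ ∑ y ∈ Y, p * p ^ (n * n) := Finset.sum_le_sum hupp
      _ = Y.card * (p * p ^ (n * n)) := by rw [Finset.sum_const, smul_eq_mul]
      _ ≤ p ^ n * (p * p ^ (n * n)) := Nat.mul_le_mul_right _ hYc
  have hNb : (p - 1) * N.card ≤ p ^ (n * (n - 1)) := by
    have hq : p ^ (n * n) = p ^ (n * (n - 1)) * p ^ n := by
      rw [← pow_add]
      congr 1
      obtain ⟨m, rfl⟩ : ∃ m, n = m + 1 := ⟨n - 1, by omega⟩
      simp only [Nat.add_sub_cancel]
      ring
    have hpos : 0 < p * (p ^ n * p ^ n) := by positivity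
    refine Nat.le_of_mul_le_mul_right ?_ hpos
    calc (p - 1) * N.card * (p * (p ^ n * p ^ n)) = N.card * ((p - 1) * p) * (p ^ n * p ^ n) := by ring
      _ ≤ p ^ n * (p * p ^ (n * n)) := hdc
      _ = p ^ (n * (n - 1)) * (p * (p ^ n * p ^ n)) := by rw [hq]; ring
  have h5 : (p - 2) * p ^ (n * (n - 1)) + p ^ (n * (n - 1)) = (p - 1) * p ^ (n * (n - 1)) := by
    obtain ⟨m, rfl⟩ : ∃ m, p = m + 2 := ⟨p - 2, by omega⟩
    simp only [Nat.add_sub_cancel]
    have : m + 2 - 1 = m + 1 := by omega
    rw [this]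
    ring
  have h6 : (p - 1) * p ^ (n * (n - 1)) = (p - 1) * Nat.card {W : Matrix (Fin n) (Fin n) k //
      W.mulVec x = a • v ∧ Etale x v W} + (p - 1) * N.card := by
    rw [← mul_add, hEt]
  omega

omit [Finite k] in
theorem etale_ext {K : Type} [Field K] [Algebra k K] {x v : Fin n → k} {W : Matrix (Fin n) (Fin n) k}
    (h : Etale x v W) :
    Etale (fun i => algebraMap k K (x i)) (fun i => algebraMap k K (v i)) (W.map (algebraMap k K)) := by
  rintro y ⟨t, ht⟩
  obtain b := Module.Basis.ofVectorSpace k K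
  have key : ∀ l, ∃ s : k, (fun i => b.repr (y i) l) = s • x := by
    intro l
    refine h _ ⟨b.repr t l, ?_⟩
    funext i
    have h1 := congrFun ht i
    simp only [Matrix.mulVec, dotProduct, Matrix.map_apply, Pi.smul_apply, smul_eq_mul] at h1 ⊢
    have h2 : ∑ j, W i j • y j = v i • t := by
      rw [Algebra.smul_def, mul_comm, ← h1]
      exact Finset.sum_congr rfl fun j _ => Algebra.smul_def _ _
    have h3 := congrArg (fun z => b.repr z l) h2
    simp only [map_sum, map_smul, Finsupp.coe_finsetSum, Finset.sum_apply, Finsupp.smul_apply, smul_eq_mul] at h3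
    rw [h3, mul_comm]
  choose s hs using key
  rcases Classical.em (∃ i, x i ≠ 0) with ⟨i0, hi0⟩ | hx
  · refine ⟨y i0 * algebraMap k K (x i0)⁻¹, ?_⟩
    funext i
    apply b.repr.injective
    ext l
    have h1 : b.repr (y i) l = s l * x i := congrFun (hs l) i
    have h0 : b.repr (y i0) l = s l * x i0 := congrFun (hs l) i0
    have h2 : (y i0 * algebraMap k K (x i0)⁻¹) • algebraMap k K (x i) = ((x i0)⁻¹ * x i) • y i0 := by
      rw [smul_eq_mul, Algebra.smul_def, map_mul]
      ring
    show b.repr (y i) l = b.repr (((y i0 * algebraMap k K (x i0)⁻¹)) • algebraMap k K (x i)) l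
    rw [h2, map_smul, Finsupp.smul_apply, h1, h0, smul_eq_mul]
    field_simp
  · push Not at hx
    refine ⟨0, ?_⟩
    funext i
    apply b.repr.injective
    ext l
    have h1 : b.repr (y i) l = s l * x i := congrFun (hs l) i
    rw [h1, hx i]
    simp

end Pool.Agent.Helper52.DEG
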