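import Pool.Agent.Helper52.DEG.Cnt
import Pool.Agent.Helper52.DEG.MatK

/-!
# DEG-WCARD: counting the matrices at a closed point

Let `k = fx p (dg y) K` (a field with `q = p ^ dg y` elements, `card_fx`, `dg_dvd`, `dg_pos`), `x, v'` the
vectors over `k` with the entries of `rp y`, `v`.  `Wm d y v` is the image of `{W over k // W x = d • v'}`
under the injective map `W ↦ W.map (algebraMap k K)` (a matrix with fixed entries comes from `k`).  So
`card_mulVec_eqK` and `card_etaleK` (with `n = 3`, `a = d`) and `etale_ext` give both statements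
(`3 * (3 - 1) = 6`).
-/

set_option autoImplicit false

namespace Pool.Agent.Helper52.DEG

open Pool.Agent.Helper87.LD

section transport

variable {K : Type} [Field K] (k : Subfield K)

/-- the equation over the subfield and over the field -/
private lemma mulVec_iff38 (W : Matrix (Fin 3) (Fin 3) k) (x v : Fin 3 → k) (d : ℕ) :
    W.mulVec x = (d : k) • v ↔
      (W.map (algebraMap k K)).mulVec (fun i => (x i : K)) = (d : K) • (fun i => (v i : K)) := by
  rw [funext_iff, funext_iff]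
  refine forall_congr' fun i => ?_
  have h1 : (W.map (algebraMap k K)).mulVec (fun i => (x i : K)) i = ((W.mulVec x i : k) : K) := by
    rw [Matrix.mulVec, Matrix.mulVec, dotProduct, dotProduct]
    push_cast
    rfl
  have h2 : ((d : K) • (fun i => (v i : K))) i = ((((d : k) • v) i : k) : K) := by
    rw [Pi.smul_apply, Pi.smul_apply, smul_eq_mul, smul_eq_mul]
    push_cast
    rfl
  rw [h1, h2]
  exact ⟨fun h => by rw [h], fun h => Subtype.ext h⟩

private lemma map_inj38 : Function.Injective fun W : Matrix (Fin 3) (Fin 3) k => W.map (algebraMap k K) := by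
  intro W W' h
  ext i j
  exact congrFun (congrFun h i) j

end transport

variable {p : ℕ} [Fact p.Prime] {K : Type} [Field K] [CharP K p] [Fintype K] {m : ℕ}
  (hK : Fintype.card K = p ^ m)

omit [CharP K p] [Fintype K] in
private lemma mem_Wm38 [Fintype K] {d : ℕ} {y : Cl p K} {v : Fin 3 → K} {W : Matrix (Fin 3) (Fin 3) K} :
    W ∈ Wm d y v ↔ (∀ i j, W i j ^ (p ^ dg y) = W i j) ∧ W.mulVec (rp y).1 = (d : K) • v := by
  classical
  unfold Wm
  rw [Finset.mem_filter]
  exact and_iff_right (Finset.mem_univ _)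

omit [CharP K p] [Fintype K] in
private lemma mem_V38 [Fintype K] {y : Cl p K} {v : Fin 3 → K} (hv : v ∈ V y) (i : Fin 3) :
    v i ^ (p ^ dg y) = v i := by
  classical
  unfold V at hv
  rw [Finset.mem_filter] at hv
  exact hv.2 i

include hK

theorem card_Wm (hm : 1 ≤ m) (d : ℕ) (y : Cl p K) {v : Fin 3 → K} (hv : v ∈ V y) :
    (Wm d y v).card = (p ^ dg y) ^ 6 := by
  classical
  obtain ⟨x, hx⟩ : ∃ x : Fin 3 → fx p (dg y) K, ∀ i, (x i : K) = (rp y).1 i :=
    ⟨fun i => ⟨(rp y).1 i, rp_pow y i⟩, fun i => rfl⟩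
  obtain ⟨v', hv'⟩ : ∃ v' : Fin 3 → fx p (dg y) K, ∀ i, (v' i : K) = v i :=
    ⟨fun i => ⟨v i, mem_V38 hv i⟩, fun i => rfl⟩
  have ex : (fun i => (x i : K)) = (rp y).1 := funext hx
  have ev' : (fun i => (v' i : K)) = v := funext hv'
  have hx0 : x ≠ 0 := by
    rintro rfl
    apply (rp y).ne_zero
    funext i
    rw [← hx i]
    rfl
  have h1 := card_mulVec_eqK x ((d : fx p (dg y) K) • v') hx0
  rw [card_fx hK (dg_dvd hK y) (dg_pos hK hm y)] at h1
  have h2 : Nat.card {W : Matrix (Fin 3) (Fin 3) (fx p (dg y) K) // W.mulVec x = (d : fx p (dg y) K) • v'} =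
      Nat.card {W : Matrix (Fin 3) (Fin 3) K // W ∈ Wm d y v} := by
    refine Nat.card_congr ⟨fun W => ⟨W.1.map (algebraMap (fx p (dg y) K) K), ?_⟩,
      fun W => ⟨fun i j => ⟨W.1 i j, (mem_Wm38.1 W.2).1 i j⟩, ?_⟩, ?_, ?_⟩
    · have h3 := (mulVec_iff38 (fx p (dg y) K) W.1 x v' d).1 W.2
      rw [ex, ev'] at h3
      exact mem_Wm38.2 ⟨fun i j => (W.1 i j).2, h3⟩
    · rw [mulVec_iff38, ex, ev']
      exact (mem_Wm38.1 W.2).2
    · intro W
      rfl
    · intro W
      rfl
  have h4 : Nat.card {W : Matrix (Fin 3) (Fin 3) K // W ∈ Wm d y v} = (Wm d y v).card := by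
    rw [Nat.card_eq_fintype_card, Fintype.card_coe]
  rw [← h4, ← h2, h1]

open Classical in
theorem card_Wm_etale (hm : 1 ≤ m) (d : ℕ) (y : Cl p K) {v : Fin 3 → K} (hv : v ∈ V y) (hv0 : v ≠ 0) :
    (p ^ dg y - 2) * (p ^ dg y) ^ 6 ≤
      (p ^ dg y - 1) * ((Wm d y v).filter fun W => Etale (rp y).1 v W).card := by
  obtain ⟨x, hx⟩ : ∃ x : Fin 3 → fx p (dg y) K, ∀ i, (x i : K) = (rp y).1 i :=
    ⟨fun i => ⟨(rp y).1 i, rp_pow y i⟩, fun i => rfl⟩
  obtain ⟨v', hv'⟩ : ∃ v' : Fin 3 → fx p (dg y) K, ∀ i, (v' i : K) = v i :=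
    ⟨fun i => ⟨v i, mem_V38 hv i⟩, fun i => rfl⟩
  have ex : (fun i => (x i : K)) = (rp y).1 := funext hx
  have ev' : (fun i => (v' i : K)) = v := funext hv'
  have hx0 : x ≠ 0 := by
    rintro rfl
    apply (rp y).ne_zero
    funext i
    rw [← hx i]
    rfl
  have hv0' : v' ≠ 0 := by
    rintro rfl
    apply hv0
    funext i
    rw [← hv' i]
    rfl
  have h1 := card_etaleK x v' hx0 hv0' (d : fx p (dg y) K)
  rw [card_fx hK (dg_dvd hK y) (dg_pos hK hm y)] at h1
  refine h1.trans (Nat.mul_le_mul_left _ ?_)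
  have h4 : ((Wm d y v).filter fun W => Etale (rp y).1 v W).card =
      Nat.card {W : Matrix (Fin 3) (Fin 3) K // W ∈ (Wm d y v).filter fun W => Etale (rp y).1 v W} := by
    rw [Nat.card_eq_fintype_card, Fintype.card_coe]
  rw [h4]
  refine Nat.card_le_card_of_injective (fun W => ⟨W.1.map (algebraMap (fx p (dg y) K) K), ?_⟩) ?_
  · have h3 := (mulVec_iff38 (fx p (dg y) K) W.1 x v' d).1 W.2.1
    rw [ex, ev'] at h3
    have h5 : Etale (fun i => (x i : K)) (fun i => (v' i : K)) (W.1.map (algebraMap (fx p (dg y) K) K)) :=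
      etale_ext W.2.2
    rw [ex, ev'] at h5
    rw [Finset.mem_filter]
    exact ⟨mem_Wm38.2 ⟨fun i j => (W.1 i j).2, h3⟩, h5⟩
  · intro W W' h
    exact Subtype.ext (map_inj38 _ (congrArg Subtype.val h))

end Pool.Agent.Helper52.DEG
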